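import Pool.Agent.Helper37.BT.Aff
import Pool.Agent.Helper77.BT.Pts
import Pool.Agent.Helper13.BT.N7
import Pool.Agent.Helper97.BE.NoeCert

/-!
# Project BERTINI: the final assembly
-/

universe u v

namespace Pool.Agent.BT

open MvPolynomial Pool.Agent.PL Pool.Agent.Helper91.Sect

/-- the form with the dehomogenization of `H` as coefficients is `H` -/
lemma formV_dehom {K : Type u} [Field K] {n D : ℕ} {H : MvPolynomial (Fin (n + 1)) K}
    (hH : H.IsHomogeneous D) : formV (dehom D H) = H := formV_coeff hH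

/-- the vector of the powers of a variable -/
lemma exists_g0 (k : Type u) [Field k] {n t : ℕ} (ds : Fin t → ℕ) (v : Fin t → Fin n) :
    ∃ g0 : ∀ s, MonV n (ds s) → ℤ, ∀ s, pol (fun q => ((g0 s q : ℤ) : k)) = X (v s) ^ ds s := by
  classical
  refine ⟨fun s q => coeff q.1 (X (v s) ^ ds s : MvPolynomial (Fin n) ℤ), fun s => ?_⟩
  have h1 := map_pol (Int.castRingHom k)
    (fun q : MonV n (ds s) => coeff q.1 (X (v s) ^ ds s : MvPolynomial (Fin n) ℤ))
  rw [pol_coeff (totalDegree_X_pow _ _).le, map_pow, map_X] at h1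
  exact h1.symm

/-- a nonconstant point has a nonconstant quotient in all coordinate systems -/
lemma exists_transc {k' : Type u} {K : Type v} [Field k'] [Field K] [Algebra k' K] [CharZero k']
    {n : ℕ} (g : Matrix (Fin n) (Fin n) ℚ) {P Q : Fin n → K}
    (hPQ : ∀ i, P i = ∑ j, ((g i j : ℚ) : K) * Q j)
    (hP : ∃ i j, Transcendental k' (P i / P j)) : ∃ i j, Transcendental k' (Q i / Q j) := by
  have : CharZero K := charZero_of_injective_algebraMap (algebraMap k' K).injective
  by_contra hcon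
  push Not at hcon
  have hcon' : ∀ i j, IsAlgebraic k' (Q i / Q j) := by
    intro i j
    have h1 := hcon i j
    unfold Transcendental at h1
    exact not_not.1 h1
  obtain ⟨i, j, hij⟩ := hP
  -- a nonzero coordinate
  obtain ⟨l, hl⟩ : ∃ l, Q l ≠ 0 := by
    by_contra h0
    push Not at h0
    apply hij
    rw [hPQ i, Finset.sum_eq_zero fun l _ => by rw [h0 l, mul_zero], zero_div]
    exact isAlgebraic_zero
  have h1 : ∀ i, IsAlgebraic k' (P i / Q l) := by
    intro i
    rw [hPQ i, Finset.sum_div, ← mem_algebraicClosure_iff]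
    refine sum_mem fun s _ => ?_
    rw [mul_div_assoc, mem_algebraicClosure_iff]
    refine IsAlgebraic.mul ?_ (hcon' s l)
    rw [← map_ratCast (algebraMap k' K)]
    exact isAlgebraic_algebraMap _
  apply hij
  have h2 : P i / P j = (P i / Q l) * (P j / Q l)⁻¹ := by
    rw [inv_div, div_mul_div_cancel₀ hl]
  rw [h2]
  exact (h1 i).mul (h1 j).inv

/-- The projective curve given by the forms with the coefficients `b` and by the forms `h`, or a curve
which maps onto it, has a Galois section over an extension of degree prime to `p`. -/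
def HasSecP {k : Type u} [Field k] (p : ℕ) {M t : ℕ} {d : Fin t → ℕ} (b : IxP M d → k) {U : Type}
    (h : U → MvPolynomial (Fin (M + 1)) k) : Prop :=
  ∃ (k' : Type u) (_ : Field k') (_ : Algebra k k'), FiniteDimensional k k' ∧
    ¬ p ∣ Module.finrank k k' ∧ ∃ (K : Type u) (_ : Field K) (_ : Algebra k' K)
      (P : Fin (M + 1) → K), (∃ i j, Transcendental k' (P i / P j)) ∧
      (∀ u, aeval P (map (algebraMap k k') (h u)) = 0) ∧
      (∀ s, aeval P (map (algebraMap k k') (hform fun q => b ⟨s, q⟩)) = 0) ∧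
      Nonempty (GaloisSection k' K)

/-- from the projective curve to the affine curve -/
lemma hasSecV_of_hasSecP {k : Type u} [Field k] [CharZero k] {p N t : ℕ} {d : Fin (t + 1) → ℕ}
    {s₀ : Fin (t + 1)} {b : IxP (N + 2) d → k} {U : Type} [Fintype U] {e : U → ℕ}
    {h : U → MvPolynomial (Fin (N + 3)) k} (hh : ∀ u, (h u).IsHomogeneous (e u))
    {g : Matrix (Fin (N + 3)) (Fin (N + 3)) ℚ} (hg : g.det ≠ 0) {M : ℕ} (hM : 1 ≤ M)
    (hfin : FinG (mainS (trA k (N + 2) d s₀ g b))
      (relS (othS (trA k (N + 2) d s₀ g b)) fun u => dehom (e u) (chg g (h u))) M)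
    (hs : HasSecP p b h) :
    HasSecV p (mainS (trA k (N + 2) d s₀ g b))
      (relS (othS (trA k (N + 2) d s₀ g b)) fun u => dehom (e u) (chg g (h u))) := by
  obtain ⟨k', _, _, hk', hpk', K, _, _, P, hP, hPh, hPb, hsec⟩ := hs
  have : CharZero k' := charZero_of_injective_algebraMap (algebraMap k k').injective
  have : CharZero K := charZero_of_injective_algebraMap (algebraMap k' K).injective
  have hgg : g * g⁻¹ = 1 := Matrix.mul_nonsing_inv _ (isUnit_iff_ne_zero.2 hg)
  -- the point in the new coordinates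
  let Q : Fin (N + 3) → K := fun i => ∑ j, ((g⁻¹ i j : ℚ) : K) * P j
  have hPQ : ∀ i, P i = ∑ j, ((g i j : ℚ) : K) * Q j := by
    intro i
    have h1 : ∀ l, ∑ j, ((g i j : ℚ) : K) * ((g⁻¹ j l : ℚ) : K) =
        (((1 : Matrix (Fin (N + 3)) (Fin (N + 3)) ℚ) i l : ℚ) : K) := by
      intro l
      rw [← hgg, Matrix.mul_apply, Rat.cast_sum]
      exact Finset.sum_congr rfl fun j _ => (Rat.cast_mul _ _).symm
    simp only [Q, Finset.mul_sum]
    rw [Finset.sum_comm]
    simp only [← mul_assoc, ← Finset.sum_mul]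
    simp only [h1]
    rw [Finset.sum_eq_single i]
    · rw [Matrix.one_apply_eq, Rat.cast_one, one_mul]
    · intro l _ hl
      rw [Matrix.one_apply_ne hl.symm, Rat.cast_zero, zero_mul]
    · intro h
      exact absurd (Finset.mem_univ _) h
  obtain ⟨i, j, hij⟩ := exists_transc g hPQ hP
  have hPQ' : P = fun i => ∑ j, ((g i j : ℚ) : K) * Q j := funext hPQ
  -- values
  have hval : ∀ {D : ℕ} {H : MvPolynomial (Fin (N + 3)) k}, H.IsHomogeneous D →
      aeval P (map (algebraMap k k') H) = 0 →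
      aeval Q (formV fun q : MonV (N + 2) D => algebraMap k k' (dehom D (chg g H) q)) = 0 ∧
      (Q 0 ≠ 0 → aeval (fun v : Fin (N + 2) => Q v.succ / Q 0)
        (pol fun q : MonV (N + 2) D => algebraMap k k' (dehom D (chg g H) q)) = 0) := by
    intro D H hH h0
    have h1 : (fun q : MonV (N + 2) D => algebraMap k k' (dehom D (chg g H) q)) =
        dehom D (chg g (map (algebraMap k k') H)) := by
      funext q
      rw [← dehom_map, map_chg]
    have h2 : (chg g (map (algebraMap k k') H)).IsHomogeneous D :=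
      isHomogeneous_chg g (hH.map _)
    have h3 : aeval Q (chg g (map (algebraMap k k') H)) = 0 := by
      rw [aeval_chg, ← hPQ', h0]
    rw [h1]
    refine ⟨?_, fun hQ => aeval_dehom_eq_zero h2 hQ h3⟩
    rw [formV_dehom h2, h3]
  have hmain := hval (hform_homog fun q => b ⟨s₀, q⟩) (hPb s₀)
  have hoth : ∀ s, _ := fun s => hval (hform_homog fun q => b ⟨s₀.succAbove s, q⟩)
    (hPb (s₀.succAbove s))
  have hrel : ∀ u, _ := fun u => hval (hh u) (hPh u)
  have hQ := pts (K := K) hM (hfin.map (algebraMap k k')) (P := Q) (i := i) (j := j) hmain.1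
    (by
      rintro (s | u)
      · exact (hoth s).1
      · exact (hrel u).1) hij
  refine ⟨k', _, _, hk', hpk', K, _, _, fun v => Q v.succ / Q 0, hQ.2, hmain.2 hQ.1, ?_, hsec⟩
  rintro (s | u)
  · exact (hoth s).2 hQ.1
  · exact (hrel u).2 hQ.1

/-- one form and one prime -/
theorem thin_step {F k : Type u} [Field F] [CharZero F] [Field k] [Algebra F k]
    (hF : ∃ S : Finset F, Subfield.closure (S : Set F) = ⊤)
    (hk : ∃ S : Finset k, Subfield.closure (S : Set k) = ⊤) {p : ℕ} (hp : p.Prime)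
    {m : ℕ} {w : Fin (m + 1) → k} {i j : Fin (m + 1)} (hT : Transcendental F (w i / w j))
    {N t : ℕ} (ht : t ≤ N) {d : Fin (t + 1) → ℕ} (s₀ : Fin (t + 1)) (hpd : p ∣ d s₀)
    (hd3 : 3 ≤ d s₀) {U : Type} [Fintype U] {e : U → ℕ} (h : U → MvPolynomial (Fin (N + 3)) k)
    (hh : ∀ u, (h u).IsHomogeneous (e u)) (l : Fin (t + 3) → Fin (N + 3) → k)
    (hl : ∀ (L : Type u) [Field L] [Algebra k L] (P : Fin (N + 3) → L),
      (∀ i, ∑ j, algebraMap k L (l i j) * P j = 0) → (∀ u, aeval P (h u) = 0) → P = 0) :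
    UL.IsThin {a : IxP (N + 2) d × Fin (m + 1) → F | HasSecP p (sysW w a) h} := by
  classical
  have : CharZero k := charZero_of_injective_algebraMap (algebraMap F k).injective
  obtain ⟨g, c, hg, hc, hcert⟩ := exists_coord ht h hh l hl
  obtain ⟨g0, hg0⟩ := exists_g0 k (fun s => d (s₀.succAbove s))
    (fun s : Fin t => ((Fin.natAdd 2 (Fin.castLE ht s)).cast (by omega) : Fin (N + 2)))
  obtain ⟨c', hNoe⟩ := noe_of_cert ht hc (h := fun u => dehom (e u) (chg g (h u))) hcert hg0
  have hA1 := thin_curves hF hk hp hpd hd3 hT (hh := fun u => dehom (e u) (chg g (h u)))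
    ⟨g0, c', hNoe⟩
  have hwj : w j ≠ 0 := by
    intro h0
    rw [h0, div_zero] at hT
    exact hT isAlgebraic_zero
  obtain ⟨M, hM, hA2⟩ := thin_finG (F := F) (d := d s₀) hNoe hwj
  have h1 := UL.IsThin.comapLin (E := Fin (m + 1)) (trE F (N + 2) d s₀ hg) (hA1.union hA2)
  refine UL.IsThin.mono h1 fun a ha => ?_
  have h2 : trA k (N + 2) d s₀ g (sysW w a) = sysW w
      (fun q : IxV (N + 2) (d s₀) (fun s => d (s₀.succAbove s)) × Fin (m + 1) =>
        trE F (N + 2) d s₀ hg (fun i => a (i, q.2)) q.1) := trA_sysW w a g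
  by_cases hfin : FinG (mainS (trA k (N + 2) d s₀ g (sysW w a)))
      (relS (othS (trA k (N + 2) d s₀ g (sysW w a))) fun u => dehom (e u) (chg g (h u))) M
  · left
    have h3 := hasSecV_of_hasSecP hh hg hM hfin ha
    rw [h2] at h3
    exact h3
  · right
    rw [h2] at hfin
    exact hfin

/-- **Linear systems of complete intersections in a fixed projective variety.** -/
theorem bertini {F k : Type u} [Field F] [CharZero F] [Field k] [Algebra F k]
    (hF : ∃ S : Finset F, Subfield.closure (S : Set F) = ⊤)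
    (hk : ∃ S : Finset k, Subfield.closure (S : Set k) = ⊤)
    {m : ℕ} {w : Fin (m + 1) → k} {i j : Fin (m + 1)} (hT : Transcendental F (w i / w j))
    {M t : ℕ} (ht : t + 1 ≤ M) {d : Fin t → ℕ} {U : Type} [Fintype U] {e : U → ℕ}
    (h : U → MvPolynomial (Fin (M + 1)) k) (hh : ∀ u, (h u).IsHomogeneous (e u))
    (l : Fin (t + 2) → Fin (M + 1) → k)
    (hl : ∀ (L : Type u) [Field L] [Algebra k L] (P : Fin (M + 1) → L),
      (∀ i, ∑ j, algebraMap k L (l i j) * P j = 0) → (∀ u, aeval P (h u) = 0) → P = 0) :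
    UL.IsThin {a : IxP M d × Fin (m + 1) → F |
      ∃ s, 3 ≤ d s ∧ ∃ p : ℕ, p.Prime ∧ p ∣ d s ∧ HasSecP p (sysW w a) h} := by
  classical
  rcases t with _ | t
  · refine UL.IsThin.mono UL.IsThin.empty fun a ha => ?_
    obtain ⟨s, -⟩ := ha
    exact s.elim0
  obtain ⟨N, rfl⟩ : ∃ N, M = N + 2 := ⟨M - 2, by omega⟩
  have h1 := UL.IsThin.biUnion (F := F) (Finset.univ : Finset (Fin (t + 1)))
    (A := fun s => {a : IxP (N + 2) d × Fin (m + 1) → F |
      3 ≤ d s ∧ ∃ p : ℕ, p.Prime ∧ p ∣ d s ∧ HasSecP p (sysW w a) h}) (by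
    intro s _
    by_cases hds : 3 ≤ d s
    · have h2 := UL.IsThin.biUnion (F := F) (d s).primeFactors
        (A := fun p => {a : IxP (N + 2) d × Fin (m + 1) → F | HasSecP p (sysW w a) h}) (by
        intro p hp
        exact thin_step hF hk (Nat.prime_of_mem_primeFactors hp) hT (by omega) s
          (Nat.dvd_of_mem_primeFactors hp) hds h hh l hl)
      refine UL.IsThin.mono h2 fun a ha => ?_
      obtain ⟨-, p, hp, hpd, ha⟩ := ha
      simp only [Set.mem_iUnion]
      exact ⟨p, Nat.mem_primeFactors.2 ⟨hp, hpd, by omega⟩, ha⟩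
    · refine UL.IsThin.mono UL.IsThin.empty fun a ha => ?_
      exact absurd ha.1 hds)
  refine UL.IsThin.mono h1 fun a ha => ?_
  obtain ⟨s, hs⟩ := ha
  simp only [Set.mem_iUnion]
  exact ⟨s, Finset.mem_univ _, hs⟩

end Pool.Agent.BT
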