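import Pool.Agent.Helper37.BT.Defs

/-!
# Project BERTINI: the field `E(X)` and the generic relations
-/

universe u v

namespace Pool.Agent.BT

open MvPolynomial

/-- the field `E(X)` -/
abbrev FFV (E : Type u) [Field E] (n d m : ℕ) {t : ℕ} (ds : Fin t → ℕ) : Type u :=
  FractionRing (MvPolynomial (IxV n d ds × Fin (m + 2)) E)

/-- the coefficient field of the constants in `E(X)` -/
noncomputable def cF {E : Type u} [Field E] (n d m : ℕ) {t : ℕ} (ds : Fin t → ℕ) :
    E →+* FFV E n d m ds :=
  (algebraMap (MvPolynomial (IxV n d ds × Fin (m + 2)) E) (FFV E n d m ds)).comp C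

/-- the variables in `E(X)` -/
noncomputable def xF {E : Type u} [Field E] {n d m t : ℕ} {ds : Fin t → ℕ}
    (i : IxV n d ds × Fin (m + 2)) : FFV E n d m ds :=
  algebraMap (MvPolynomial (IxV n d ds × Fin (m + 2)) E) (FFV E n d m ds) (X i)

/-- the generic main relation -/
noncomputable def fF {E : Type u} [Field E] {n d m t : ℕ} {ds : Fin t → ℕ} (w : Fin (m + 2) → E) :
    MonV n d → FFV E n d m ds :=
  mainV xF fun e => cF n d m ds (w e)

/-- the other relations -/
noncomputable def relF {E : Type u} [Field E] {n d m t : ℕ} {ds : Fin t → ℕ} (w : Fin (m + 2) → E)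
    {U : Type} {e : U → ℕ} (h : ∀ u, MonV n (e u) → E) :
    ∀ u : Fin t ⊕ U, MonV n (Sum.elim ds e u) → FFV E n d m ds :=
  relS (othV xF fun e => cF n d m ds (w e)) (fun u q => cF n d m ds (h u q))

end Pool.Agent.BT
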