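import Pool.Agent.Helper37.BT.Defs

/-!
# Project BERTINI: coefficient vectors
-/

universe u v

namespace Pool.Agent.BT

open MvPolynomial

variable {R : Type u} [CommRing R] {n D : ℕ}

/-- the coefficients of `pol g` -/
lemma coeff_pol (g : MonV n D → R) (s : MonV n D) : coeff s.1 (pol g) = g s := by
  classical
  rw [pol, coeff_sum, Finset.sum_eq_single s]
  · rw [coeff_monomial, if_pos rfl]
  · intro t _ ht
    rw [coeff_monomial, if_neg]
    intro h
    exact ht (Subtype.ext h)
  · intro h
    exact absurd (Finset.mem_univ _) h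

lemma coeff_pol_of (g : MonV n D → R) {s : Fin n →₀ ℕ} (hs : D < s.degree) :
    coeff s (pol g) = 0 := by
  classical
  rw [pol, coeff_sum]
  refine Finset.sum_eq_zero fun t _ => ?_
  rw [coeff_monomial, if_neg]
  rintro rfl
  exact absurd t.2 (not_le.2 hs)

lemma pol_injective : Function.Injective (pol : (MonV n D → R) → MvPolynomial (Fin n) R) := by
  intro g g' h
  funext s
  rw [← coeff_pol g s, h, coeff_pol]

lemma totalDegree_le_iff {P : MvPolynomial (Fin n) R} :
    P.totalDegree ≤ D ↔ ∀ s : Fin n →₀ ℕ, D < s.degree → coeff s P = 0 := by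
  have h : ∀ s : Fin n →₀ ℕ, (s.sum fun _ e => e) = s.degree := by
    intro s
    rw [Finsupp.degree_apply]
    rfl
  constructor
  · intro h1 s hs
    by_contra h2
    have h3 := le_totalDegree (mem_support_iff.2 h2)
    rw [h] at h3
    omega
  · intro h1
    rw [totalDegree, Finset.sup_le_iff]
    intro s hs
    rw [h]
    by_contra h2
    exact mem_support_iff.1 hs (h1 s (by omega))

lemma totalDegree_pol_le (g : MonV n D → R) : (pol g).totalDegree ≤ D :=
  totalDegree_le_iff.2 fun _ hs => coeff_pol_of g hs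

lemma pol_coeff {P : MvPolynomial (Fin n) R} (hP : P.totalDegree ≤ D) :
    pol (fun s : MonV n D => coeff s.1 P) = P := by
  ext s
  by_cases hs : s.degree ≤ D
  · exact coeff_pol _ (⟨s, hs⟩ : MonV n D)
  · push Not at hs
    rw [coeff_pol_of _ hs, totalDegree_le_iff.1 hP s hs]

lemma exists_pol {P : MvPolynomial (Fin n) R} (hP : P.totalDegree ≤ D) :
    ∃ g : MonV n D → R, pol g = P := ⟨_, pol_coeff hP⟩

lemma map_pol {R' : Type v} [CommRing R'] (φ : R →+* R') (g : MonV n D → R) :
    map φ (pol g) = pol fun s => φ (g s) := by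
  rw [pol, map_sum]
  refine Finset.sum_congr rfl fun s _ => ?_
  rw [map_monomial]

lemma map_comb {R' : Type v} [CommRing R'] (φ : R →+* R') {d a b : ℕ} {U : Type} [Fintype U]
    {e : U → ℕ} (f : MonV n d → R) (rel : ∀ u, MonV n (e u) → R) (H : MonV n a → R)
    (H' : U → MonV n b → R) :
    map φ (comb f rel H H') = comb (fun q => φ (f q)) (fun u q => φ (rel u q))
      (fun q => φ (H q)) (fun u q => φ (H' u q)) := by
  unfold comb
  rw [map_add, map_mul, map_sum, map_pol, map_pol]
  congr 1
  refine Finset.sum_congr rfl fun u _ => ?_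
  rw [map_mul, map_pol, map_pol]

/-- padding -/
lemma exists_pad {D' : ℕ} (h : D ≤ D') (g : MonV n D → R) :
    ∃ g' : MonV n D' → R, pol g' = pol g :=
  exists_pol ((totalDegree_pol_le g).trans h)

end Pool.Agent.BT
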