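import Pool.Agent.Helper37.BT.Basic

/-!
# Project BERTINI: certificates descend to the field of definition
-/

universe u v

namespace Pool.Agent.BT

open MvPolynomial

section

variable {F : Type u} {L : Type v} [Field F] [Field L] [Algebra F L] (π : L →ₗ[F] F) {n : ℕ}

/-- a linear retraction applied to a product with a polynomial over `F` -/
lemma coeff_mul_retract {P : MvPolynomial (Fin n) L} {P₀ : MvPolynomial (Fin n) F}
    (h : ∀ s, coeff s P₀ = π (coeff s P)) (Q : MvPolynomial (Fin n) F) (s : Fin n →₀ ℕ) :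
    coeff s (P₀ * Q) = π (coeff s (P * map (algebraMap F L) Q)) := by
  classical
  rw [coeff_mul, coeff_mul, map_sum]
  refine Finset.sum_congr rfl fun x _ => ?_
  rw [coeff_map, h, mul_comm (coeff x.1 P), ← Algebra.smul_def, map_smul, smul_eq_mul, mul_comm]

lemma coeff_pol_retract {D : ℕ} (g : MonV n D → L) (s : Fin n →₀ ℕ) :
    coeff s (pol fun q => π (g q)) = π (coeff s (pol g)) := by
  by_cases hs : s.degree ≤ D
  · have h1 := coeff_pol (fun q => π (g q)) (⟨s, hs⟩ : MonV n D)
    have h2 := coeff_pol g (⟨s, hs⟩ : MonV n D)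
    simp only at h1 h2
    rw [h1, h2]
  · push Not at hs
    rw [coeff_pol_of _ hs, coeff_pol_of _ hs, map_zero]

end

/-- FinX descends. -/
theorem FinX.descend {F : Type u} {L : Type v} [Field F] [Field L] [Algebra F L] {N d M : ℕ}
    {U : Type} [Fintype U] {e : U → ℕ} {f : MonV (N + 2) d → F}
    {rel : ∀ u, MonV (N + 2) (e u) → F}
    (h : FinX (fun q => algebraMap F L (f q)) (fun u q => algebraMap F L (rel u q)) M) :
    FinX f rel M := by
  classical
  intro q
  obtain ⟨A, B, H, H', hq⟩ := h q
  obtain ⟨π, hπ⟩ := (Algebra.linearMap F L).exists_leftInverse_of_injective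
    (LinearMap.ker_eq_bot.2 (algebraMap F L).injective)
  have hπ1 : ∀ c : F, π (algebraMap F L c) = c := fun c => congrArg (fun l : F →ₗ[F] F => l c) hπ
  refine ⟨fun a => π (A a), fun a => π (B a), fun a => π (H a), fun u a => π (H' u a), ?_⟩
  ext s
  have h1 := congrArg (fun P => π (coeff s P)) hq
  simp only [comb, coeff_add, map_add, coeff_sum, map_sum] at h1 ⊢
  have hX : (X 0 : MvPolynomial (Fin (N + 2)) L) = map (algebraMap F L) (X 0) := (map_X _ _).symm
  rw [coeff_pol_retract π B, coeff_mul_retract π (P := pol A) (coeff_pol_retract π A),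
    coeff_mul_retract π (P := pol H) (coeff_pol_retract π H)]
  rw [hX] at h1
  simp only [coeff_mul_retract π
    (coeff_pol_retract π (H' _)), map_pol]
  refine h1.trans ?_
  rw [coeff_monomial, coeff_monomial]
  split_ifs
  · rw [← map_one (algebraMap F L), hπ1]
  · rw [map_zero]

end Pool.Agent.BT
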