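import Pool.Agent.Helper37.BT.Proj
import Pool.Agent.Helper13.PL.S1

/-!
# Project BERTINI: linear systems of forms and affine points
-/

universe u v

namespace Pool.Agent.BT

open MvPolynomial Pool.Agent.PL

/-- value of a form at a multiple of a point -/
lemma aeval_homog_mul {K : Type u} {L : Type v} [Field K] [Field L] [Algebra K L] {n D : ℕ}
    {H : MvPolynomial (Fin n) K} (hH : H.IsHomogeneous D) (c : L) (P : Fin n → L) :
    aeval (fun i => c * P i) H = c ^ D * aeval P H := by
  classical
  rw [aeval_def, aeval_def, eval₂_eq', eval₂_eq', Finset.mul_sum]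
  refine Finset.sum_congr rfl fun s hs => ?_
  have h1 : ∑ i, s i = D := by
    have h2 : s.degree = D := by
      have h4 := hH (mem_support_iff.1 hs)
      rwa [Finsupp.degree_eq_weight_one]
    rwa [Finsupp.degree_eq_sum] at h2
  have h3 : ∏ i, (c * P i) ^ s i = c ^ D * ∏ i, P i ^ s i := by
    simp only [mul_pow]
    rw [Finset.prod_mul_distrib, Finset.prod_pow_eq_pow_sum, h1]
  rw [h3]
  ring

/-- the affine point -/
lemma aeval_dehom_eq_zero {K : Type u} {L : Type v} [Field K] [Field L] [Algebra K L] {n D : ℕ}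
    {H : MvPolynomial (Fin (n + 1)) K} (hH : H.IsHomogeneous D) {P : Fin (n + 1) → L}
    (hP0 : P 0 ≠ 0) (hP : aeval P H = 0) :
    aeval (fun i : Fin n => P i.succ / P 0) (pol (dehom D H)) = 0 := by
  have h1 : (fun i => (P 0)⁻¹ * P i) = (Fin.cons 1 fun i : Fin n => P i.succ / P 0) := by
    funext i
    refine Fin.cases ?_ (fun i => ?_) i
    · rw [Fin.cons_zero, inv_mul_cancel₀ hP0]
    · rw [Fin.cons_succ]
      ring
  have h2 := aeval_homog_mul hH (P 0)⁻¹ P
  rw [hP, mul_zero, h1] at h2
  rw [pol_dehom hH, ← AlgHom.comp_apply, comp_aeval]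
  have h3 : (fun i => (aeval fun i : Fin n => P i.succ / P 0)
      ((Fin.cons 1 X : Fin (n + 1) → MvPolynomial (Fin n) K) i)) =
      (Fin.cons 1 fun i : Fin n => P i.succ / P 0) := by
    funext i
    refine Fin.cases ?_ (fun i => ?_) i
    · rw [Fin.cons_zero, Fin.cons_zero, map_one]
    · rw [Fin.cons_succ, Fin.cons_succ, aeval_X]
  rw [h3]
  exact h2

variable {F k : Type u} [Field F] [CharZero F] [Field k] [Algebra F k] {m M t : ℕ}
  {d : Fin (t + 1) → ℕ} {s₀ : Fin (t + 1)}

/-- the linear systems after the change of coordinates -/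
lemma trA_sysW (w : Fin (m + 1) → k) (a : IxP M d × Fin (m + 1) → F)
    (g : Matrix (Fin (M + 1)) (Fin (M + 1)) ℚ) :
    trA k M d s₀ g (sysW w a) =
      sysW w (fun q : IxV M (d s₀) (fun s => d (s₀.succAbove s)) × Fin (m + 1) =>
        trA F M d s₀ g (fun i => a (i, q.2)) q.1) := by
  have h1 : sysW w a = ∑ e, w e • (fun i => algebraMap F k (a (i, e))) := by
    funext i
    unfold sysW
    rw [Finset.sum_apply]
    exact Finset.sum_congr rfl fun e _ => by rw [Pi.smul_apply, smul_eq_mul, mul_comm]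
  rw [h1, map_sum]
  funext i
  unfold sysW
  rw [Finset.sum_apply]
  refine Finset.sum_congr rfl fun e _ => ?_
  rw [map_smul, Pi.smul_apply, smul_eq_mul, trA_map, mul_comm]

end Pool.Agent.BT
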