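import Pool.Agent.Helper37.UL.Defs
import Pool.Agent.Helper37.TH.Split

/-!
# Project BERTINI: polynomials in several variables of bounded degree

`MonV n D`: exponents in `n` variables of degree at most `D`; a polynomial of degree at most `D` is given
by its vector of coefficients `MonV n D → R`.  The affine coordinates are `x = X 0`, `y = X 1`, `X 2`, ….
A curve is given by the main relation `f : MonV (N + 2) d → R` and the other relations
`rel u : MonV (N + 2) (e u) → R`, `u ∈ U`.
-/

universe u v

namespace Pool.Agent.BT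

open MvPolynomial

/-- exponents of degree at most `D` in `n` variables -/
abbrev MonV (n D : ℕ) : Type := {s : Fin n →₀ ℕ // s.degree ≤ D}

instance (n D : ℕ) : Finite (MonV n D) := Finsupp.finite_of_degree_le D

noncomputable instance (n D : ℕ) : Fintype (MonV n D) := Fintype.ofFinite _

/-- the polynomial with the coefficient vector `g` -/
noncomputable def pol {R : Type u} [CommSemiring R] {n D : ℕ} (g : MonV n D → R) :
    MvPolynomial (Fin n) R :=
  ∑ s, monomial s.1 (g s)

/-- the combination of the main relation and of the other relations with the multipliers `H`, `H'` -/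
noncomputable def comb {R : Type u} [CommSemiring R] {n d a b : ℕ} {U : Type} [Fintype U]
    {e : U → ℕ} (f : MonV n d → R) (rel : ∀ u, MonV n (e u) → R) (H : MonV n a → R)
    (H' : U → MonV n b → R) : MvPolynomial (Fin n) R :=
  pol H * pol f + ∑ u, pol (H' u) * pol (rel u)

/-- the polynomial in `x` with coefficients `c` -/
noncomputable def polX {R : Type u} [CommSemiring R] {N n : ℕ} (c : Fin (n + 1) → R) :
    MvPolynomial (Fin (N + 2)) R :=
  ∑ i, C (c i) * X 0 ^ (i : ℕ)

/-- polynomials in `x`, `y` as polynomials in all variables -/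
noncomputable def inc {R : Type u} [CommSemiring R] (N : ℕ) :
    MvPolynomial (Fin 2) R →+* MvPolynomial (Fin (N + 2)) R :=
  (aeval ![X 0, X 1] : MvPolynomial (Fin 2) R →ₐ[R] MvPolynomial (Fin (N + 2)) R).toRingHom

/-- NOE(c): every polynomial of degree at most `D` is a combination of the monomials of degree at most
`c` with coefficients in `K[x, y]` (with the obvious degrees), modulo the relations. -/
def Noe {K : Type u} [Field K] {N : ℕ} {U : Type} [Fintype U] {e : U → ℕ}
    (rel : ∀ u, MonV (N + 2) (e u) → K) (c : ℕ) : Prop :=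
  ∀ (D : ℕ) (P : MvPolynomial (Fin (N + 2)) K), P.totalDegree ≤ D →
    ∃ (a : MonV (N + 2) c → MvPolynomial (Fin 2) K) (b : U → MvPolynomial (Fin (N + 2)) K),
      (∀ s, a s ≠ 0 → (a s).totalDegree + s.1.degree ≤ D) ∧
      (∀ u, b u ≠ 0 → (b u).totalDegree + e u ≤ D) ∧
      P = ∑ s, inc N (a s) * monomial s.1 1 + ∑ u, b u * pol (rel u)

/-- The polynomials `G`, `G'` of degree `n` have no common zero on the projective curve: all monomials of
degree at most `M` are combinations with the obvious degrees. -/
def Cop {K : Type u} [Field K] {N n d : ℕ} {U : Type} [Fintype U] {e : U → ℕ}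
    (G G' : MonV (N + 2) n → K) (f : MonV (N + 2) d → K) (rel : ∀ u, MonV (N + 2) (e u) → K)
    (M : ℕ) : Prop :=
  ∀ q : MonV (N + 2) M, ∃ (A B : MonV (N + 2) (M - n) → K) (H : MonV (N + 2) M → K)
    (H' : U → MonV (N + 2) M → K),
    pol A * pol G + pol B * pol G' + comb f rel H H' = monomial q.1 1

/-- The projective curve has no point on `x = z = 0`: so all coordinates are integral over `K[x]`. -/
def FinX {K : Type u} [Field K] {N d : ℕ} {U : Type} [Fintype U] {e : U → ℕ}
    (f : MonV (N + 2) d → K) (rel : ∀ u, MonV (N + 2) (e u) → K) (M : ℕ) : Prop :=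
  ∀ q : MonV (N + 2) M, ∃ (A B : MonV (N + 2) (M - 1) → K) (H : MonV (N + 2) M → K)
    (H' : U → MonV (N + 2) M → K),
    pol A * X 0 + pol B + comb f rel H H' = monomial q.1 1

/-- the family of relations made of the variable relations `g` and of the fixed relations `h` -/
def relS {R : Type u} {n t : ℕ} {ds : Fin t → ℕ} {U : Type} {e : U → ℕ}
    (g : ∀ s, MonV n (ds s) → R) (h : ∀ u, MonV n (e u) → R) :
    ∀ u : Fin t ⊕ U, MonV n (Sum.elim ds e u) → R
  | Sum.inl s => g s
  | Sum.inr u => h u

/-- the indices of the coefficients of the variable forms: the main one and the others -/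
abbrev IxV (n d : ℕ) {t : ℕ} (ds : Fin t → ℕ) : Type :=
  MonV n d ⊕ (Σ s : Fin t, MonV n (ds s))

/-- the variable relations with the coefficients `∑ e, x (i, e) * w e` -/
def mainV {R : Type u} [CommSemiring R] {n d t m : ℕ} {ds : Fin t → ℕ}
    (x : IxV n d ds × Fin (m + 2) → R) (w : Fin (m + 2) → R) (q : MonV n d) : R :=
  ∑ e, x (Sum.inl q, e) * w e

/-- the other variable relations -/
def othV {R : Type u} [CommSemiring R] {n d t m : ℕ} {ds : Fin t → ℕ}
    (x : IxV n d ds × Fin (m + 2) → R) (w : Fin (m + 2) → R) (s : Fin t) (q : MonV n (ds s)) : R :=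
  ∑ e, x (Sum.inr ⟨s, q⟩, e) * w e

end Pool.Agent.BT
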