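import Pool.Agent.Helper37.BT.Ser
import Pool.Agent.Helper37.BT.Desc
import Pool.Agent.Helper45.BT.Cert
import Pool.Agent.Helper10.BT.Sol2
import Pool.Agent.Helper97.BE.NoeCert
import Pool.Agent.Helper37.BT.Gen
import Pool.Agent.Helper37.PC.Geo1

/-!
# Project BERTINI: GEO over the explicit field
-/

universe u v

namespace Pool.Agent.BT

open MvPolynomial

/-- Ring homomorphisms from `E(X)` that agree on constants and variables are equal. -/
lemma ffv_ext {E : Type u} [Field E] {n d m t : ℕ} {ds : Fin t → ℕ} {S : Type v} [Field S]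
    {g h : FFV E n d m ds →+* S} (hC : ∀ c, g (cF n d m ds c) = h (cF n d m ds c))
    (hX : ∀ i, g (xF i) = h (xF i)) : g = h := by
  apply IsLocalization.ringHom_ext (nonZeroDivisors (MvPolynomial (IxV n d ds × Fin (m + 2)) E))
  apply MvPolynomial.ringHom_ext
  · exact hC
  · exact hX

theorem geo1 {κ E : Type u} [Field κ] [IsAlgClosed κ] [CharZero κ] [Field E] [Algebra κ E]
    (φE : E →+* HahnSeries ℤ κ) (hφc : ∀ c : κ, φE (algebraMap κ E c) = HahnSeries.C c) {T : E}
    (hφT : φE T = HahnSeries.single 1 1) {N d p r m t : ℕ} (hp : p.Prime) (hd : d = p * r)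
    (hd3 : 3 ≤ d) {ds : Fin t → ℕ} {U : Type} [Fintype U] {e : U → ℕ}
    {w : Fin (m + 2) → E} (hw0 : w 0 = 1) (hw1 : w 1 = T)
    {h : ∀ u, MonV (N + 2) (e u) → E} {g0 : ∀ s, MonV (N + 2) (ds s) → κ} {c : ℕ}
    (hNoe : Noe (relS (fun s q => algebraMap κ E (g0 s q)) h) c) :
    ∃ (S₁ : Type u) (_ : Field S₁) (_ : Algebra (FFV E (N + 2) d m ds) S₁) (n M : ℕ)
      (G : Fin d → MonV (N + 2) n → algebraicClosure (FFV E (N + 2) d m ds) S₁)
      (W : MonV (N + 2) (r * n) → algebraicClosure (FFV E (N + 2) d m ds) S₁)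
      (H : MonV (N + 2) M → algebraicClosure (FFV E (N + 2) d m ds) S₁)
      (H' : Fin t ⊕ U → MonV (N + 2) M → algebraicClosure (FFV E (N + 2) d m ds) S₁)
      (D D' : Fin d → MonV (N + 2) M → algebraicClosure (FFV E (N + 2) d m ds) S₁)
      (D'' : Fin d → Fin t ⊕ U → MonV (N + 2) M → algebraicClosure (FFV E (N + 2) d m ds) S₁)
      (c : Fin d → Fin (M + 1) → algebraicClosure (FFV E (N + 2) d m ds) S₁) (τ : S₁ ≃+* S₁)
      (Q : Subfield S₁),
      n ≤ M ∧ 1 ≤ M ∧ IsAlgClosed S₁ ∧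
      -- the identities
      ∏ i, pol (G i) = C (algebraMap (FFV E (N + 2) d m ds)
        (algebraicClosure (FFV E (N + 2) d m ds) S₁) (cF (N + 2) d m ds T)) * pol W ^ p +
        comb (fun a => algebraMap (FFV E (N + 2) d m ds) (algebraicClosure (FFV E (N + 2) d m ds) S₁) (fF w a))
          (fun u a => algebraMap (FFV E (N + 2) d m ds) (algebraicClosure (FFV E (N + 2) d m ds) S₁) (relF w h u a))
          H H' ∧
      FinX (fF (ds := ds) w : MonV (N + 2) d → FFV E (N + 2) d m ds) (relF w h) M ∧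
      (∀ i j, i ≠ j → Cop (G i) (G j)
        (fun a => algebraMap (FFV E (N + 2) d m ds) (algebraicClosure (FFV E (N + 2) d m ds) S₁) (fF w a))
        (fun u a => algebraMap (FFV E (N + 2) d m ds) (algebraicClosure (FFV E (N + 2) d m ds) S₁) (relF w h u a)) M) ∧
      (∀ i, c i ≠ 0 ∧ pol (D i) * pol (G i) +
        comb (fun a => algebraMap (FFV E (N + 2) d m ds) (algebraicClosure (FFV E (N + 2) d m ds) S₁) (fF w a))
          (fun u a => algebraMap (FFV E (N + 2) d m ds) (algebraicClosure (FFV E (N + 2) d m ds) S₁) (relF w h u a))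
          (D' i) (D'' i) = polX (c i)) ∧
      -- the automorphism `τ`
      (∀ y : FFV E (N + 2) d m ds, τ (algebraMap _ S₁ y) = algebraMap _ S₁ y) ∧
      (∀ y : κ, algebraMap (FFV E (N + 2) d m ds) S₁ (cF (N + 2) d m ds (algebraMap κ E y)) ∈ Q) ∧
      (∀ i, algebraMap (FFV E (N + 2) d m ds) S₁ (xF i) ∈ Q) ∧
      (∀ y, IsAlgebraic Q y → τ y = y) ∧
      (∀ i a, τ (G i a : S₁) = G i a) ∧ (∀ a, τ (W a : S₁) = W a) ∧
      (∀ α : S₁, α ^ p = algebraMap (FFV E (N + 2) d m ds) S₁ (cF (N + 2) d m ds T) → τ α ≠ α) ∧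
      -- the transpositions
      ∀ i j l, i ≠ j → j ≠ l → i ≠ l → ∃ ρ : S₁ ≃+* S₁,
        (∀ y : FFV E (N + 2) d m ds, ρ (algebraMap _ S₁ y) = algebraMap _ S₁ y) ∧
        (∀ a, ρ (G i a : S₁) = G j a) ∧ (∀ a, ρ (G l a : S₁) = G l a) ∧
        ∀ y, τ (ρ y) = ρ (τ y) := by
  classical
  obtain ⟨κ₁, iF1, iA1, Γ, x, ξ, hcl, hΓ, hξa, hξb, hξ, hperm⟩ :=
    PC.exists_K1 κ (d := d) (idx0 N m ds) idx0_injective (spec0 κ g0)
  obtain ⟨A, S₁, iFA, iFS, cA, lA, ψ, τA, τS, hScl, hψ, hlc, hli, hτc, hτl, ⟨α₀, hα₀, hτα⟩, hτS,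
    ⟨Q, hQ, hQalg⟩, hρ⟩ := PC.exists_hahn κ κ₁ hp
  have hd0 : 0 < d := by omega
  -- characteristic
  have hκ₁0 : CharZero κ₁ := charZero_of_injective_algebraMap (algebraMap κ κ₁).injective
  have hA0 : CharZero A := charZero_of_injective_ringHom cA.injective
  -- the series
  set φA : E →+* A := lA.comp φE with hφA
  set s : IxV (N + 2) d ds × Fin (m + 2) → A := fun i => cA (ser0 g0 ξ i) with hs
  set t' : IxV (N + 2) d ds × Fin (m + 2) → A := fun i => cA (ser1 x i) with ht
  set xs : IxV (N + 2) d ds × Fin (m + 2) → PowerSeries A := fun i =>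
    PowerSeries.C (s i) + PowerSeries.X * PowerSeries.C (t' i) with hxs
  set g₁ : MvPolynomial (IxV (N + 2) d ds × Fin (m + 2)) E →+* PowerSeries A :=
    eval₂Hom ((PowerSeries.C).comp φA) xs with hg₁
  have hg₁inj : Function.Injective g₁ := by
    refine PC.inj_of_spec φA s t' ?_
    have h1 : (fun i => s i + t' i) = fun i => cA (ξ i) := by
      funext i
      rw [hs, ht]
      simp only
      rw [← map_add, ser_add hξb]
    rw [h1]
    exact PC.sum_ne_zero_of_indep hli φE hξ
  have hg₁C : ∀ b, g₁ (C b) = PowerSeries.C (φA b) := fun b => by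
    rw [hg₁, coe_eval₂Hom, eval₂_C]
    rfl
  have hg₁X : ∀ i, g₁ (X i) = xs i := fun i => by
    rw [hg₁, coe_eval₂Hom, eval₂_X]
  have hginj : Function.Injective (ψ.comp g₁) := hψ.comp hg₁inj
  let iAlg : Algebra (FFV E (N + 2) d m ds) S₁ := (IsFractionRing.lift hginj).toAlgebra
  have hmap : ∀ P : MvPolynomial (IxV (N + 2) d ds × Fin (m + 2)) E,
      algebraMap (FFV E (N + 2) d m ds) S₁ (algebraMap
        (MvPolynomial (IxV (N + 2) d ds × Fin (m + 2)) E) (FFV E (N + 2) d m ds) P) = ψ (g₁ P) :=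
    fun P => IsFractionRing.lift_algebraMap hginj P
  have hmapC : ∀ b, algebraMap (FFV E (N + 2) d m ds) S₁ (cF (N + 2) d m ds b) =
      ψ (PowerSeries.C (φA b)) := fun b => by
    rw [← hg₁C]
    exact hmap _
  have hmapX : ∀ i, algebraMap (FFV E (N + 2) d m ds) S₁ (xF i) = ψ (xs i) := fun i => by
    rw [← hg₁X]
    exact hmap _
  -- the generic curve
  set v : Fin (m + 2) → A := fun e => φA (w e) with hv
  have hv0 : v 0 = 1 := by
    rw [hv]
    simp only
    rw [hw0, map_one]
  set f : MonV (N + 2) d → PowerSeries A := fun q => ∑ e, xs (Sum.inl q, e) * PowerSeries.C (v e)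
    with hf
  set rel : ∀ u : Fin t ⊕ U, MonV (N + 2) (Sum.elim ds e u) → PowerSeries A :=
    relS (fun s q => ∑ e, xs (Sum.inr ⟨s, q⟩, e) * PowerSeries.C (v e))
      (fun u q => PowerSeries.C (φA (h u q))) with hrel
  have hfgen : ∀ q, algebraMap (FFV E (N + 2) d m ds) S₁ (fF w q) = ψ (f q) := by
    intro q
    change algebraMap (FFV E (N + 2) d m ds) S₁ (∑ e, xF (Sum.inl q, e) * cF _ d m ds (w e)) = _
    rw [map_sum, hf, map_sum]
    refine Finset.sum_congr rfl fun e _ => ?_
    rw [map_mul, map_mul, hmapX, hmapC]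
  have hrelgen : ∀ u q, algebraMap (FFV E (N + 2) d m ds) S₁ (relF w h u q) = ψ (rel u q) := by
    rintro (s' | u) q
    · change algebraMap (FFV E (N + 2) d m ds) S₁
        (∑ e, xF (Sum.inr ⟨s', q⟩, e) * cF _ d m ds (w e)) = ψ (∑ e, _)
      rw [map_sum, map_sum]
      refine Finset.sum_congr rfl fun e _ => ?_
      rw [map_mul, map_mul, hmapX, hmapC]
    · exact hmapC _
  set T' : A := lA (HahnSeries.single 1 1) with hT'
  have hφT' : φA T = T' := by
    rw [hφA, RingHom.comp_apply, hφT]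
  have hv1 : v 1 = T' := by
    rw [hv]
    simp only
    rw [hw1, hφT']
  have hT'0 : T' ≠ 0 := by
    rw [hT']
    intro h
    have h1 := (map_eq_zero lA).1 h
    exact one_ne_zero (HahnSeries.single_eq_zero_iff.1 h1)
  set γ : Fin d → A := fun i => cA (Γ i) with hγ
  have hγinj : Function.Injective γ := cA.injective.comp hΓ.injective
  have hγ1 : ∀ i j, γ i ≠ γ j + 1 := by
    intro i j h
    have h1 : Γ i = Γ j + 1 := by
      apply cA.injective
      rw [map_add, map_one]
      exact h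
    have h2 : (X i - X j - 1 : MvPolynomial (Fin d) κ) = 0 := by
      apply hΓ
      rw [map_sub, map_sub, aeval_X, aeval_X, map_one, map_zero, h1]
      ring
    have h3 := congrArg (eval (fun _ => (0 : κ))) h2
    simp at h3
  have hxs0 : ∀ i, PowerSeries.constantCoeff (xs i) = s i := fun i => by
    rw [hxs]
    simp
  have hf0 : pol (fun q => PowerSeries.constantCoeff (f q)) = inc N (PC.f0 γ T') := by
    have h1 : (fun q => PowerSeries.constantCoeff (f q)) =
        fun q : MonV (N + 2) d => coeff q.1 (inc N (PC.f0 γ T')) := by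
      funext q
      have h2 := sum_ser0_main cA hd0 g0 hξa (v := v) hv0 q
      rw [hv1] at h2
      rw [← h2, hf, map_sum]
      refine Finset.sum_congr rfl fun e _ => ?_
      rw [map_mul, hxs0, PowerSeries.constantCoeff_C]
    rw [h1]
    exact pol_coeff (totalDegree_inc_f0_le N γ T')
  have hrel0 : (fun u q => PowerSeries.constantCoeff (rel u q)) =
      fun u q => φA (relS (fun s q => algebraMap κ E (g0 s q)) h u q) := by
    funext u q
    rcases u with s' | u
    · change PowerSeries.constantCoeff (∑ e, xs (Sum.inr ⟨s', q⟩, e) * PowerSeries.C (v e)) =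
        φA (algebraMap κ E (g0 s' q))
      have h2 := sum_ser0_oth (d := d) cA g0 (ξ := ξ) (v := v) hv0 s' q
      have h3 : φA (algebraMap κ E (g0 s' q)) = cA (algebraMap κ κ₁ (g0 s' q)) := by
        rw [← hlc, hφA, RingHom.comp_apply, hφc]
      rw [h3, ← h2, map_sum]
      refine Finset.sum_congr rfl fun e _ => ?_
      rw [map_mul, hxs0, PowerSeries.constantCoeff_C]
    · change PowerSeries.constantCoeff (PowerSeries.C (φA (h u q))) = φA (h u q)
      rw [PowerSeries.constantCoeff_C]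
  have hNoe' : Noe (fun u q => PowerSeries.constantCoeff (rel u q)) c := by
    rw [hrel0]
    exact Noe.map φA hNoe
  obtain ⟨G, W, H, H', hGW, hG0, hequi, halg⟩ := exists_sol (m := d + c) hp hd hd0 le_rfl hT'0
    hγinj hγ1 f rel hf0 hNoe'
  -- algebraicity
  set K₀ : Subfield S₁ := (algebraMap (FFV E (N + 2) d m ds) S₁).fieldRange with hK₀
  have hmem : ∀ P, ψ (g₁ P) ∈ K₀ := fun P => ⟨_, hmap P⟩
  have hTmem : ψ (PowerSeries.C T') ∈ K₀ := by
    rw [← hφT', ← hg₁C]
    exact hmem _
  have hfmem : ∀ q, ψ (f q) ∈ K₀ := fun q => ⟨_, hfgen q⟩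
  have hrelmem : ∀ u q, ψ (rel u q) ∈ K₀ := fun u q => ⟨_, hrelgen u q⟩
  have hrelmem0 : ∀ u q, ψ (PowerSeries.C (PowerSeries.constantCoeff (rel u q))) ∈ K₀ := by
    intro u q
    have h1 := congrFun (congrFun hrel0 u) q
    rw [h1]
    exact ⟨_, hmapC _⟩
  have hxsj : ∀ j : Fin d, xs (idx0 N m ds j) =
      PowerSeries.C ((∏ i, (Polynomial.X - Polynomial.C (γ i))).coeff (j : ℕ)) := by
    intro j
    have h1 : ser0 g0 ξ (idx0 N m ds j) = ξ (idx0 N m ds j) := if_pos ⟨j, rfl⟩
    have h2 : ser1 x (idx0 N m ds j) = 0 := if_pos ⟨j, rfl⟩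
    have h3 : (∏ i, (Polynomial.X - Polynomial.C (γ i))) =
        (∏ i, (Polynomial.X - Polynomial.C (Γ i))).map cA := by
      rw [Polynomial.map_prod]
      exact Finset.prod_congr rfl fun i _ => by simp [hγ]
    simp only [hxs, hs, ht]
    rw [h1, h2, map_zero, map_zero, mul_zero, add_zero, hξa, h3, Polynomial.coeff_map]
  have hγalg : ∀ i, IsAlgebraic K₀ (ψ (PowerSeries.C (γ i))) := by
    intro i
    set P : Polynomial S₁ := ∏ i, (Polynomial.X - Polynomial.C (ψ (PowerSeries.C (γ i)))) with hP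
    have hPmap : P = (∏ i, (Polynomial.X - Polynomial.C (γ i))).map
        (ψ.comp PowerSeries.C) := by
      rw [Polynomial.map_prod]
      exact Finset.prod_congr rfl fun i _ => by simp
    have hmon1 : (∏ i, (Polynomial.X - Polynomial.C (γ i))).Monic :=
      Polynomial.monic_prod_of_monic _ _ fun i _ => Polynomial.monic_X_sub_C _
    have hdeg1 : (∏ i, (Polynomial.X - Polynomial.C (γ i))).natDegree = d := by
      rw [Polynomial.natDegree_prod_of_monic _ _ fun i _ => Polynomial.monic_X_sub_C _]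
      simp
    have hlift : P ∈ Polynomial.lifts (algebraMap K₀ S₁) := by
      rw [Polynomial.lifts_iff_coeff_lifts]
      intro n
      rw [hPmap, Polynomial.coeff_map]
      rcases lt_trichotomy n d with h | h | h
      · have h1 := hxsj ⟨n, h⟩
        rw [RingHom.comp_apply, ← h1, ← hg₁X]
        exact ⟨⟨_, hmem _⟩, rfl⟩
      · have h1 : (∏ i, (Polynomial.X - Polynomial.C (γ i))).coeff n = 1 := by
          have h2 := hmon1.coeff_natDegree
          rw [hdeg1] at h2
          rw [h]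
          exact h2
        rw [h1, map_one]
        exact ⟨1, map_one _⟩
      · rw [Polynomial.coeff_eq_zero_of_natDegree_lt (by omega), map_zero]
        exact ⟨0, map_zero _⟩
    obtain ⟨P', hP'⟩ := (Polynomial.mem_lifts P).1 hlift
    refine ⟨P', ?_, ?_⟩
    · rintro rfl
      rw [Polynomial.map_zero] at hP'
      have h1 : P.Monic := Polynomial.monic_prod_of_monic _ _ fun i _ => Polynomial.monic_X_sub_C _
      exact h1.ne_zero hP'.symm
    · rw [Polynomial.aeval_def, ← Polynomial.eval_map, hP', hP, Polynomial.eval_prod]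
      exact Finset.prod_eq_zero (Finset.mem_univ i) (by simp)
  obtain ⟨hGalg, hWalg, hHalg, hHalg'⟩ := halg ψ hψ K₀ hTmem hγalg hfmem hrelmem hrelmem0
  have hac : ∀ {y : S₁}, IsAlgebraic K₀ y → y ∈ algebraicClosure (FFV E (N + 2) d m ds) S₁ :=
    fun h => mem_algebraicClosure_iff.2 (PC.alg_of_fieldRange h)
  set G' : Fin d → MonV (N + 2) (1 + p * (d + c)) → algebraicClosure (FFV E (N + 2) d m ds) S₁ :=
    fun i q => ⟨ψ (G i q), hac (hGalg i q)⟩ with hG'
  set W' : MonV (N + 2) (r * (1 + p * (d + c))) → algebraicClosure (FFV E (N + 2) d m ds) S₁ :=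
    fun q => ⟨ψ (W q), hac (hWalg q)⟩ with hW'
  set H₁ : MonV (N + 2) (d * (1 + p * (d + c))) → algebraicClosure (FFV E (N + 2) d m ds) S₁ :=
    fun q => ⟨ψ (H q), hac (hHalg q)⟩ with hH₁
  set H₁' : Fin t ⊕ U → MonV (N + 2) (d * (1 + p * (d + c))) →
      algebraicClosure (FFV E (N + 2) d m ds) S₁ :=
    fun u q => ⟨ψ (H' u q), hac (hHalg' u q)⟩ with hH₁'
  obtain ⟨M₁, hM₀, hnM₁, hM₁, hfin₁, hcop₁, D₁, D₁', D₁'', c₁, hDc₁⟩ := exists_cert hp hd0 hT'0
    hγinj hγ1 hf0 hNoe' hG0 ψ hψ (algebraMap (algebraicClosure (FFV E (N + 2) d m ds) S₁) S₁)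
    (fK := fun a => algebraMap (FFV E (N + 2) d m ds)
      (algebraicClosure (FFV E (N + 2) d m ds) S₁) (fF w a))
    (relK := fun u a => algebraMap (FFV E (N + 2) d m ds)
      (algebraicClosure (FFV E (N + 2) d m ds) S₁) (relF w h u a)) (GK := G')
    (fun a => hfgen a) (fun u a => hrelgen u a) (fun i a => rfl) (d * (1 + p * (d + c)))
  obtain ⟨H₂, hH₂⟩ := exists_pad hM₀ H₁
  have h₂ : ∀ u, ∃ g' : MonV (N + 2) M₁ → algebraicClosure (FFV E (N + 2) d m ds) S₁,
      pol g' = pol (H₁' u) := fun u => exists_pad hM₀ (H₁' u)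
  choose H₂' hH₂' using h₂
  -- the automorphisms fix the field of constants
  have hfix : ∀ (σA : A ≃+* A) (σS : S₁ ≃+* S₁), (∀ l, σA (lA l) = lA l) →
      (∀ i, σA (s i) = s i) → (∀ i, σA (t' i) = t' i) →
      (∀ z, σS (ψ z) = ψ (PowerSeries.map (σA : A →+* A) z)) →
      (∀ P, PowerSeries.map (σA : A →+* A) (g₁ P) = g₁ P) ∧
      ∀ y : FFV E (N + 2) d m ds, σS (algebraMap _ S₁ y) = algebraMap _ S₁ y := by
    intro σA σS h1 h2 h3 h4
    have h5 : ∀ P, PowerSeries.map (σA : A →+* A) (g₁ P) = g₁ P := by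
      intro P
      have h6 : (PowerSeries.map (σA : A →+* A)).comp g₁ = g₁ := by
        apply MvPolynomial.ringHom_ext
        · intro b
          rw [RingHom.comp_apply, hg₁C, PowerSeries.map_C]
          congr 1
          exact h1 _
        · intro i
          rw [RingHom.comp_apply, hg₁X]
          simp only [hxs]
          rw [map_add, map_mul, PowerSeries.map_C, PowerSeries.map_C, PowerSeries.map_X]
          have h7 : (σA : A →+* A) (s i) = s i := h2 i
          have h8 : (σA : A →+* A) (t' i) = t' i := h3 i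
          rw [h7, h8]
      exact DFunLike.congr_fun h6 P
    refine ⟨h5, fun y => ?_⟩
    have h6 : (σS : S₁ →+* S₁).comp (algebraMap (FFV E (N + 2) d m ds) S₁) =
        algebraMap (FFV E (N + 2) d m ds) S₁ := by
      apply ffv_ext
      · intro b
        rw [RingHom.comp_apply, hmapC, ← hg₁C]
        change σS _ = _
        rw [h4, h5]
      · intro i
        rw [RingHom.comp_apply, hmapX, ← hg₁X]
        change σS _ = _
        rw [h4, h5]
    exact DFunLike.congr_fun h6 y
  have hfg₁ : ∀ q, f q = g₁ (∑ e, X (Sum.inl q, e) * C (w e)) := by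
    intro q
    rw [map_sum, hf]
    refine Finset.sum_congr rfl fun e _ => ?_
    rw [map_mul, hg₁C, hg₁X]
  have hrelg₁ : ∀ u q, ∃ P, rel u q = g₁ P := by
    rintro (s' | u) q
    · refine ⟨∑ e, X (Sum.inr ⟨s', q⟩, e) * C (w e), ?_⟩
      change ∑ e, xs (Sum.inr ⟨s', q⟩, e) * PowerSeries.C (v e) = _
      rw [map_sum]
      refine Finset.sum_congr rfl fun e _ => ?_
      rw [map_mul, hg₁C, hg₁X]
    · exact ⟨C (h u q), (hg₁C _).symm⟩
  obtain ⟨hτ1, hτ2⟩ := hfix τA τS hτl (fun i => hτc _) (fun i => hτc _) hτS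
  have hτG := hequi τA 1 (hτl _) (fun i => hτc _) (fun q => by rw [hfg₁, hτ1]) (fun u q => by
    obtain ⟨P, hP⟩ := hrelg₁ u q
    rw [hP, hτ1])
  refine ⟨S₁, iFS, iAlg, 1 + p * (d + c), M₁, G', W', H₂, H₂', D₁, D₁', D₁'', c₁, τS, Q, hnM₁, hM₁,
    hScl, ?_, hfin₁.descend, hcop₁, hDc₁, hτ2, ?_, ?_, hQalg, ?_, ?_, ?_, ?_⟩
  · -- the identity
    have hcomb : comb (fun a => algebraMap (FFV E (N + 2) d m ds)
          (algebraicClosure (FFV E (N + 2) d m ds) S₁) (fF w a))
        (fun u a => algebraMap (FFV E (N + 2) d m ds)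
          (algebraicClosure (FFV E (N + 2) d m ds) S₁) (relF w h u a)) H₂ H₂' =
        comb (fun a => algebraMap (FFV E (N + 2) d m ds)
          (algebraicClosure (FFV E (N + 2) d m ds) S₁) (fF w a))
        (fun u a => algebraMap (FFV E (N + 2) d m ds)
          (algebraicClosure (FFV E (N + 2) d m ds) S₁) (relF w h u a)) H₁ H₁' := by
      unfold comb
      rw [hH₂]
      simp only [hH₂']
    rw [hcomb]
    apply MvPolynomial.map_injective (algebraMap (algebraicClosure (FFV E (N + 2) d m ds) S₁) S₁)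
      (algebraMap (algebraicClosure (FFV E (N + 2) d m ds) S₁) S₁).injective
    have h1 := congrArg (MvPolynomial.map ψ) hGW
    rw [map_prod, map_add, map_mul, map_pow, map_C, map_comb] at h1 ⊢
    simp only [map_pol] at h1 ⊢
    have h2 : algebraMap (algebraicClosure (FFV E (N + 2) d m ds) S₁) S₁
        (algebraMap (FFV E (N + 2) d m ds) (algebraicClosure (FFV E (N + 2) d m ds) S₁)
          (cF (N + 2) d m ds T)) = ψ (PowerSeries.C T') := by
      rw [← hφT']
      exact hmapC _
    have h3 : (fun q => algebraMap (algebraicClosure (FFV E (N + 2) d m ds) S₁) S₁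
        (algebraMap (FFV E (N + 2) d m ds) (algebraicClosure (FFV E (N + 2) d m ds) S₁)
          (fF w q))) = fun q => ψ (f q) := funext hfgen
    have h4 : (fun u q => algebraMap (algebraicClosure (FFV E (N + 2) d m ds) S₁) S₁
        (algebraMap (FFV E (N + 2) d m ds) (algebraicClosure (FFV E (N + 2) d m ds) S₁)
          (relF w h u q))) = fun u q => ψ (rel u q) := funext fun u => funext fun q => hrelgen u q
    rw [h2, h3, h4]
    exact h1
  · intro y
    rw [hmapC]
    have h1 : PowerSeries.C (φA (algebraMap κ E y)) =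
        PowerSeries.map cA (PowerSeries.C (algebraMap κ κ₁ y)) := by
      rw [PowerSeries.map_C, ← hlc, hφA, RingHom.comp_apply, hφc]
    rw [h1]
    exact hQ _
  · intro i
    rw [hmapX]
    have h1 : xs i = PowerSeries.map cA (PowerSeries.C (ser0 g0 ξ i) +
        PowerSeries.X * PowerSeries.C (ser1 x i)) := by
      rw [map_add, map_mul, PowerSeries.map_C, PowerSeries.map_C, PowerSeries.map_X]
    rw [h1]
    exact hQ _
  · intro i a
    change τS (ψ (G i a)) = ψ (G i a)
    rw [hτS, hτG.1]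
    rfl
  · intro a
    change τS (ψ (W a)) = ψ (W a)
    rw [hτS, hτG.2.1]
  · intro α hα h'
    rw [hmapC, hφT', ← hα₀, map_pow, map_pow] at hα
    have hα₀0 : α₀ ≠ 0 := by
      rintro rfl
      rw [zero_pow hp.ne_zero] at hα₀
      exact hT'0 hα₀.symm
    set β := ψ (PowerSeries.C α₀) with hβ
    have hβ0 : β ≠ 0 := by
      rw [hβ]
      intro h1
      apply hα₀0
      have h2 := hψ (h1.trans (map_zero ψ).symm)
      exact PowerSeries.C_injective (h2.trans (map_zero _).symm)
    have hζ : (α / β) ^ p = 1 := by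
      rw [div_pow, hα, div_self (pow_ne_zero _ hβ0)]
    have hζQ : τS (α / β) = α / β := by
      apply hQalg
      refine ⟨Polynomial.X ^ p - 1, ?_, ?_⟩
      · exact Polynomial.X_pow_sub_C_ne_zero hp.pos 1
      · rw [map_sub, map_pow, Polynomial.aeval_X, hζ, map_one, sub_self]
    have hζ0 : α / β ≠ 0 := by
      intro h1
      rw [h1, zero_pow hp.ne_zero] at hζ
      exact zero_ne_one hζ
    have h1 : τS β = β := by
      have h2 : τS α = τS (α / β) * τS β := by
        rw [← map_mul, div_mul_cancel₀ _ hβ0]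
      rw [hζQ, h'] at h2
      have h3 : α / β * β = α / β * τS β := by
        rw [← h2, div_mul_cancel₀ _ hβ0]
      exact (mul_left_cancel₀ hζ0 h3).symm
    rw [hβ, hτS, PowerSeries.map_C] at h1
    exact hτα (PowerSeries.C_injective (hψ h1))
  · intro i j l hij hjl hil
    obtain ⟨ρ₁, hρκ, hρΓ, hρx⟩ := hperm (Equiv.swap i j)
    obtain ⟨ρA, ρS, hρc, hρl, hρS, hcomm⟩ := hρ ρ₁ hρκ
    have hρξ : ∀ j, ρ₁ (ξ (idx0 N m ds j)) = ξ (idx0 N m ds j) := by
      intro j'
      rw [hξa]
      have h1 : (∏ i, (Polynomial.X - Polynomial.C (Γ i))).map (ρ₁ : κ₁ →+* κ₁) =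
          ∏ i, (Polynomial.X - Polynomial.C (Γ i)) := by
        rw [Polynomial.map_prod]
        have h2 : ∀ i', (Polynomial.X - Polynomial.C (Γ i')).map (ρ₁ : κ₁ →+* κ₁) =
            Polynomial.X - Polynomial.C (Γ (Equiv.swap i j i')) := by
          intro i'
          rw [Polynomial.map_sub, Polynomial.map_X, Polynomial.map_C, ← hρΓ]
          rfl
        simp only [h2]
        exact Equiv.prod_comp (Equiv.swap i j) fun i => (Polynomial.X - Polynomial.C (Γ i))
      conv_rhs => rw [← h1]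
      rw [Polynomial.coeff_map]
      rfl
    have hρs : ∀ i, ρA (s i) = s i := by
      intro i'
      rw [hs]
      simp only
      rw [hρc]
      congr 1
      unfold ser0
      split_ifs with h
      · obtain ⟨j', rfl⟩ := h
        exact hρξ j'
      · exact hρκ _
    have hρt : ∀ i, ρA (t' i) = t' i := by
      intro i'
      rw [ht]
      simp only
      rw [hρc]
      congr 1
      unfold ser1
      split_ifs with h
      · exact map_zero _
      · exact hρx _
    obtain ⟨h1, h2⟩ := hfix ρA ρS hρl hρs hρt hρS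
    have h3 := hequi ρA (Equiv.swap i j) (hρl _) (fun i' => by
      rw [hγ]
      simp only
      rw [hρc, hρΓ]) (fun q => by rw [hfg₁, h1]) (fun u q => by
      obtain ⟨P, hP⟩ := hrelg₁ u q
      rw [hP, h1])
    refine ⟨ρS, h2, ?_, ?_, hcomm⟩
    · intro a
      change ρS (ψ (G i a)) = ψ (G j a)
      rw [hρS, h3.1, Equiv.swap_apply_left]
    · intro a
      change ρS (ψ (G l a)) = ψ (G l a)
      rw [hρS, h3.1, Equiv.swap_apply_of_ne_of_ne hil.symm hjl.symm]

end Pool.Agent.BT
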