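import Pool.Agent.Helper10.UL.Reindex

/-!
# Thin sets and linear changes of the parameters
-/

universe u v w

namespace UL

open MvPolynomial

variable {F : Type u} [Field F] {I I' : Type} [Fintype I] [Fintype I'] [DecidableEq I]
  [DecidableEq I'] {E : Type}

/-- the substitution of a linear map in the first index -/
noncomputable def linHom (E : Type) (L : (I → F) →ₗ[F] (I' → F)) :
    MvPolynomial (I' × E) F →ₐ[F] MvPolynomial (I × E) F :=
  aeval fun q => ∑ i, C (L (Pi.single i 1) q.1) * X (i, q.2)

omit [Fintype I'] [DecidableEq I'] in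
lemma lin_apply (L : (I → F) →ₗ[F] (I' → F)) (v : I → F) (i' : I') :
    L v i' = ∑ i, v i * L (Pi.single i 1) i' := by
  rw [LinearMap.pi_apply_eq_sum_univ L v, Finset.sum_apply]
  refine Finset.sum_congr rfl fun i _ => ?_
  rw [Pi.smul_apply, smul_eq_mul]
  have h1 : (fun j => if i = j then (1 : F) else 0) = Pi.single i 1 := by
    funext j
    rw [Pi.single_apply]
    simp only [eq_comm]
  rw [h1]

lemma linHom_comp (L : (I → F) ≃ₗ[F] (I' → F)) :
    (linHom E L.toLinearMap).comp (linHom E L.symm.toLinearMap) = AlgHom.id F _ := by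
  apply MvPolynomial.algHom_ext
  rintro ⟨i, e⟩
  rw [AlgHom.comp_apply]
  unfold linHom
  rw [aeval_X, map_sum]
  simp only [map_mul, aeval_X, ← algebraMap_eq, AlgHom.commutes, AlgHom.id_apply]
  have h1 : ∀ i' : I', algebraMap F (MvPolynomial (I × E) F)
      (L.symm.toLinearMap (Pi.single i' 1) i) *
      ∑ j, algebraMap F _ (L.toLinearMap (Pi.single j 1) i') * X (j, e) =
      ∑ j, algebraMap F (MvPolynomial (I × E) F) (L.toLinearMap (Pi.single j 1) i' *
        L.symm.toLinearMap (Pi.single i' 1) i) * X (j, e) := by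
    intro i'
    rw [Finset.mul_sum]
    refine Finset.sum_congr rfl fun j _ => ?_
    rw [map_mul]
    ring
  simp only [h1]
  rw [Finset.sum_comm]
  have h2 : ∀ j : I, ∑ i' : I', algebraMap F (MvPolynomial (I × E) F)
      (L.toLinearMap (Pi.single j 1) i' * L.symm.toLinearMap (Pi.single i' 1) i) * X (j, e) =
      if j = i then X (j, e) else 0 := by
    intro j
    rw [← Finset.sum_mul, ← map_sum, ← lin_apply L.symm.toLinearMap]
    have h3 : L.symm.toLinearMap (L.toLinearMap (Pi.single j 1)) = Pi.single j (1 : F) :=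
      L.symm_apply_apply _
    rw [h3, Pi.single_apply]
    by_cases h : j = i
    · rw [if_pos h.symm, if_pos h, map_one, one_mul]
    · rw [if_neg (fun h' => h h'.symm), if_neg h, map_zero, zero_mul]
  simp only [h2]
  rw [Finset.sum_ite_eq', if_pos (Finset.mem_univ _)]

/-- the substitution as an isomorphism -/
noncomputable def linEquiv (E : Type) (L : (I → F) ≃ₗ[F] (I' → F)) :
    MvPolynomial (I' × E) F ≃ₐ[F] MvPolynomial (I × E) F :=
  AlgEquiv.ofAlgHom (linHom E L.toLinearMap) (linHom E L.symm.toLinearMap) (linHom_comp L)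
    (linHom_comp L.symm)

lemma eval_linEquiv (L : (I → F) ≃ₗ[F] (I' → F)) (a : I × E → F) (Ψ : MvPolynomial (I' × E) F) :
    eval a (linEquiv E L Ψ) = eval (fun q => L (fun i => a (i, q.2)) q.1) Ψ := by
  have h : (aeval a : MvPolynomial (I × E) F →ₐ[F] F).comp (linHom E L.toLinearMap) =
      aeval fun q => L (fun i => a (i, q.2)) q.1 := by
    apply MvPolynomial.algHom_ext
    rintro ⟨i', e⟩
    rw [AlgHom.comp_apply]
    unfold linHom
    rw [aeval_X, aeval_X, map_sum]
    change _ = L.toLinearMap (fun i => a (i, e)) i'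
    rw [lin_apply]
    refine Finset.sum_congr rfl fun i _ => ?_
    rw [map_mul, aeval_X, ← algebraMap_eq, AlgHom.commutes, mul_comm]
    rfl
  exact congrArg (fun φ : MvPolynomial (I' × E) F →ₐ[F] F => φ Ψ) h

/-- **Thin sets under linear changes of the parameters.** -/
theorem IsThin.comapLin (L : (I → F) ≃ₗ[F] (I' → F)) {A : Set (I' × E → F)} (hA : IsThin A) :
    IsThin {a : I × E → F | (fun q : I' × E => L (fun i => a (i, q.2)) q.1) ∈ A} :=
  hA.comapEquiv (linEquiv E L).toRingEquiv _ (fun a Ψ => eval_linEquiv L a Ψ)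

end UL
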