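import Pool.Agent.Helper65.BT.Coord
import Pool.Agent.Helper37.BT.ThinLin

/-!
# Project BERTINI: forms, dehomogenization and linear changes of coordinates
-/

universe u v

namespace Pool.Agent.BT

open MvPolynomial

/-- the exponents of the monomials of degree `D` in `X_0, …, X_M` -/
abbrev Expo (M D : ℕ) : Type := {q : Fin (M + 1) → Fin (D + 1) // ∑ i, (q i : ℕ) = D}

/-- the form with the coefficients `b` -/
noncomputable def hform {K : Type u} [CommSemiring K] {M D : ℕ} (b : Expo M D → K) :
    MvPolynomial (Fin (M + 1)) K :=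
  ∑ q, C (b q) * ∏ i, X i ^ (q.1 i : ℕ)

/-- the exponent as a finitely supported function -/
noncomputable def exq {M D : ℕ} (q : Expo M D) : Fin (M + 1) →₀ ℕ :=
  Finsupp.equivFunOnFinite.symm fun i => (q.1 i : ℕ)

lemma exq_apply {M D : ℕ} (q : Expo M D) (i : Fin (M + 1)) : exq q i = (q.1 i : ℕ) := rfl

lemma degree_exq {M D : ℕ} (q : Expo M D) : (exq q).degree = D := by
  rw [Finsupp.degree_eq_sum]
  exact q.2

lemma exq_injective {M D : ℕ} : Function.Injective (exq : Expo M D → Fin (M + 1) →₀ ℕ) := by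
  intro q q' h
  apply Subtype.ext
  funext i
  apply Fin.ext
  exact DFunLike.congr_fun h i

lemma exists_exq {M D : ℕ} {s : Fin (M + 1) →₀ ℕ} (hs : s.degree = D) : ∃ q : Expo M D, exq q = s := by
  rw [Finsupp.degree_eq_sum] at hs
  refine ⟨⟨fun i => ⟨s i, ?_⟩, hs⟩, ?_⟩
  · have h1 := Finset.single_le_sum (f := fun i => s i) (fun i _ => Nat.zero_le _)
      (Finset.mem_univ i)
    rw [hs] at h1
    omega
  · ext i
    rfl

section

variable {K : Type u} [Field K] {M D : ℕ}

lemma hform_eq (b : Expo M D → K) : hform b = ∑ q, monomial (exq q) (b q) := by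
  unfold hform
  refine Finset.sum_congr rfl fun q _ => ?_
  rw [monomial_eq, Finsupp.prod_fintype _ _ (fun _ => pow_zero _)]
  rfl

lemma hform_homog (b : Expo M D → K) : (hform b).IsHomogeneous D := by
  rw [hform_eq]
  refine IsHomogeneous.sum _ _ _ fun q _ => isHomogeneous_monomial _ (degree_exq q)

lemma coeff_hform (b : Expo M D → K) (q : Expo M D) : coeff (exq q) (hform b) = b q := by
  classical
  rw [hform_eq, coeff_sum, Finset.sum_eq_single q]
  · rw [coeff_monomial, if_pos rfl]
  · intro q' _ hq'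
    rw [coeff_monomial, if_neg]
    exact fun h => hq' (exq_injective h)
  · intro h
    exact absurd (Finset.mem_univ _) h

lemma hform_add (b b' : Expo M D → K) : hform (b + b') = hform b + hform b' := by
  rw [hform_eq, hform_eq, hform_eq, ← Finset.sum_add_distrib]
  exact Finset.sum_congr rfl fun q _ => by rw [Pi.add_apply, map_add]

lemma hform_smul (c : K) (b : Expo M D → K) : hform (c • b) = C c * hform b := by
  rw [hform_eq, hform_eq, Finset.mul_sum]
  exact Finset.sum_congr rfl fun q _ => by rw [Pi.smul_apply, smul_eq_mul, C_mul_monomial]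

lemma map_hform {L : Type v} [Field L] (φ : K →+* L) (b : Expo M D → K) :
    map φ (hform b) = hform fun q => φ (b q) := by
  rw [hform_eq, hform_eq, map_sum]
  exact Finset.sum_congr rfl fun q _ => map_monomial _ _ _

lemma eq_zero_of_dehom {n : ℕ} {h : MvPolynomial (Fin (n + 1)) K} (hh : h.IsHomogeneous D)
    (h0 : dehom D h = 0) : h = 0 := by
  ext s
  rw [coeff_zero]
  by_contra hs
  have h1 : s.degree = D := by
    have := hh hs
    rwa [Finsupp.degree_eq_weight_one]
  have h2 : s.degree = s 0 + (Finsupp.tail s).degree := by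
    conv_lhs => rw [← Finsupp.cons_tail s]
    exact degree_cons_cd _ _
  have h3 := congrFun h0 (⟨Finsupp.tail s, by omega⟩ : MonV n D)
  unfold dehom at h3
  simp only [Pi.zero_apply] at h3
  apply hs
  rw [← h3]
  congr 1
  conv_lhs => rw [← Finsupp.cons_tail s]
  congr 1
  omega

lemma map_chg {L : Type v} [Field L] [CharZero K] (φ : K →+* L) {P : ℕ}
    (g : Matrix (Fin P) (Fin P) ℚ) (h : MvPolynomial (Fin P) K) :
    map φ (chg g h) = chg g (map φ h) := by
  have : CharZero L := charZero_of_injective_ringHom φ.injective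
  have h1 : (map φ : MvPolynomial (Fin P) K →+* _).comp (chg (K := K) g).toRingHom =
      (chg (K := L) g).toRingHom.comp (map φ) := by
    apply MvPolynomial.ringHom_ext
    · intro c
      simp only [RingHom.comp_apply, AlgHom.toRingHom_eq_coe, RingHom.coe_coe, ← algebraMap_eq,
        AlgHom.commutes]
      rw [algebraMap_eq, map_C, ← algebraMap_eq, AlgHom.commutes]
    · intro i
      simp only [RingHom.comp_apply, AlgHom.toRingHom_eq_coe, RingHom.coe_coe, map_X]
      rw [chg_X, chg_X, map_sum]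
      refine Finset.sum_congr rfl fun j _ => ?_
      rw [map_mul, map_C, map_X, map_ratCast]
  exact DFunLike.congr_fun h1 h

lemma dehom_map {L : Type v} [Field L] (φ : K →+* L) {n : ℕ} (h : MvPolynomial (Fin (n + 1)) K)
    (s : MonV n D) : dehom D (map φ h) s = φ (dehom D h s) := by
  unfold dehom
  rw [coeff_map]

/-- the coefficients of the dehomogenization after a change of coordinates -/
noncomputable def tr (g : Matrix (Fin (M + 1)) (Fin (M + 1)) ℚ) :
    (Expo M D → K) →ₗ[K] (MonV M D → K) where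
  toFun b := dehom D (chg g (hform b))
  map_add' b b' := by
    rw [hform_add, map_add, dehom_add]
  map_smul' c b := by
    rw [hform_smul, map_mul, ← algebraMap_eq, AlgHom.commutes, algebraMap_eq]
    funext s
    unfold dehom
    rw [coeff_C_mul]
    rfl

lemma tr_apply (g : Matrix (Fin (M + 1)) (Fin (M + 1)) ℚ) (b : Expo M D → K) :
    tr g b = dehom D (chg g (hform b)) := rfl

lemma tr_map {L : Type v} [Field L] [CharZero K] (φ : K →+* L)
    (g : Matrix (Fin (M + 1)) (Fin (M + 1)) ℚ) (b : Expo M D → K) (s : MonV M D) :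
    tr g (fun q => φ (b q)) s = φ (tr g b s) := by
  rw [tr_apply, tr_apply, ← map_hform, ← map_chg, dehom_map]

lemma tr_injective [CharZero K] {g : Matrix (Fin (M + 1)) (Fin (M + 1)) ℚ} (hg : g.det ≠ 0) :
    Function.Injective (tr g : (Expo M D → K) →ₗ[K] (MonV M D → K)) := by
  rw [injective_iff_map_eq_zero]
  intro b hb
  have h1 : chg g (hform b) = 0 := eq_zero_of_dehom (isHomogeneous_chg g (hform_homog b)) hb
  have h2 : chg g⁻¹ (chg g (hform b)) = hform b := by
    rw [chg_chg, Matrix.mul_nonsing_inv _ (isUnit_iff_ne_zero.2 hg), chg_one]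
  rw [h1, map_zero] at h2
  funext q
  rw [← coeff_hform b q, ← h2, coeff_zero]
  rfl

lemma degree_tail_exq (q : Expo M D) : D = exq q 0 + (Finsupp.tail (exq q)).degree := by
  have h1 : (exq q).degree = exq q 0 + (Finsupp.tail (exq q)).degree := by
    conv_lhs => rw [← Finsupp.cons_tail (exq q)]
    exact degree_cons_cd _ _
  rwa [degree_exq] at h1

/-- the exponent of the form -/
noncomputable def ofMon (s : MonV M D) : Expo M D :=
  (exists_exq (M := M) (D := D) (s := Finsupp.cons (D - s.1.degree) s.1) (by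
    rw [degree_cons_cd]
    have := s.2
    omega)).choose

lemma exq_ofMon (s : MonV M D) : exq (ofMon s) = Finsupp.cons (D - s.1.degree) s.1 :=
  (exists_exq (M := M) (D := D) (s := Finsupp.cons (D - s.1.degree) s.1) (by
    rw [degree_cons_cd]
    have := s.2
    omega)).choose_spec

/-- exponents of forms and exponents of polynomials -/
noncomputable def expoEquiv (M D : ℕ) : Expo M D ≃ MonV M D where
  toFun q := ⟨Finsupp.tail (exq q), by
    have h1 := degree_tail_exq q
    omega⟩
  invFun s := ofMon s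
  left_inv q := by
    apply exq_injective
    rw [exq_ofMon]
    have h1 := degree_tail_exq q
    conv_rhs => rw [← Finsupp.cons_tail (exq q)]
    congr 1
    simp only
    omega
  right_inv s := by
    apply Subtype.ext
    change Finsupp.tail (exq (ofMon s)) = s.1
    rw [exq_ofMon, Finsupp.tail_cons]

/-- the index set of the forms -/
abbrev IxP (M : ℕ) {t : ℕ} (d : Fin t → ℕ) : Type := Σ s : Fin t, Expo M (d s)

/-- the change of the coefficients: dehomogenization, change of coordinates, the form `s₀` becomes the main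
one -/
noncomputable def trA (K : Type u) [Field K] (M : ℕ) {t : ℕ} (d : Fin (t + 1) → ℕ)
    (s₀ : Fin (t + 1)) (g : Matrix (Fin (M + 1)) (Fin (M + 1)) ℚ) :
    (IxP M d → K) →ₗ[K] (IxV M (d s₀) (fun s => d (s₀.succAbove s)) → K) where
  toFun b
    | Sum.inl q => tr g (fun q' => b ⟨s₀, q'⟩) q
    | Sum.inr q => tr g (fun q' => b ⟨s₀.succAbove q.1, q'⟩) q.2
  map_add' b b' := by
    funext i
    rcases i with q | q
    · exact congrFun (map_add (tr g) (fun q' => b ⟨s₀, q'⟩) (fun q' => b' ⟨s₀, q'⟩)) q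
    · exact congrFun (map_add (tr g) (fun q' => b ⟨s₀.succAbove q.1, q'⟩)
        (fun q' => b' ⟨s₀.succAbove q.1, q'⟩)) q.2
  map_smul' c b := by
    funext i
    rcases i with q | q
    · exact congrFun (map_smul (tr g) c (fun q' => b ⟨s₀, q'⟩)) q
    · exact congrFun (map_smul (tr g) c (fun q' => b ⟨s₀.succAbove q.1, q'⟩)) q.2

variable {t : ℕ} {d : Fin (t + 1) → ℕ} {s₀ : Fin (t + 1)}

lemma trA_inl (g : Matrix (Fin (M + 1)) (Fin (M + 1)) ℚ) (b : IxP M d → K)
    (q : MonV M (d s₀)) :
    trA K M d s₀ g b (Sum.inl q) = tr g (fun q' => b ⟨s₀, q'⟩) q := rfl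

lemma trA_inr (g : Matrix (Fin (M + 1)) (Fin (M + 1)) ℚ) (b : IxP M d → K) (s : Fin t)
    (q : MonV M (d (s₀.succAbove s))) :
    trA K M d s₀ g b (Sum.inr ⟨s, q⟩) = tr g (fun q' => b ⟨s₀.succAbove s, q'⟩) q := rfl

lemma trA_map {L : Type v} [Field L] [CharZero K] (φ : K →+* L)
    (g : Matrix (Fin (M + 1)) (Fin (M + 1)) ℚ) (b : IxP M d → K)
    (i : IxV M (d s₀) (fun s => d (s₀.succAbove s))) :
    trA L M d s₀ g (fun q => φ (b q)) i = φ (trA K M d s₀ g b i) := by
  rcases i with q | ⟨s, q⟩
  · exact tr_map φ g _ q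
  · exact tr_map φ g _ q

lemma trA_injective [CharZero K] {g : Matrix (Fin (M + 1)) (Fin (M + 1)) ℚ} (hg : g.det ≠ 0) :
    Function.Injective (trA K M d s₀ g) := by
  rw [injective_iff_map_eq_zero]
  intro b hb
  have h0 : (fun q' => b ⟨s₀, q'⟩) = 0 := by
    apply tr_injective hg
    rw [map_zero]
    funext q
    exact congrFun hb (Sum.inl q)
  have h1 : ∀ s, (fun q' => b ⟨s₀.succAbove s, q'⟩) = 0 := by
    intro s
    apply tr_injective hg
    rw [map_zero]
    funext q
    exact congrFun hb (Sum.inr ⟨s, q⟩)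
  funext ⟨s, q⟩
  revert q
  refine Fin.succAboveCases s₀ (α := fun s => ∀ q : Expo M (d s), b ⟨s, q⟩ = 0) ?_ ?_ s
  · exact fun q => congrFun h0 q
  · exact fun s' q => congrFun (h1 s') q

lemma card_eq (M : ℕ) (d : Fin (t + 1) → ℕ) (s₀ : Fin (t + 1)) : Fintype.card (IxP M d) =
    Fintype.card (IxV M (d s₀) (fun s => d (s₀.succAbove s))) := by
  classical
  rw [Fintype.card_sum, Fintype.card_sigma, Fintype.card_sigma, Fin.sum_univ_succAbove _ s₀,
    Fintype.card_congr (expoEquiv M (d s₀))]
  congr 1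
  exact Finset.sum_congr rfl fun s _ => Fintype.card_congr (expoEquiv M _)

/-- the change of the coefficients as an isomorphism -/
noncomputable def trE (K : Type u) [Field K] [CharZero K] (M : ℕ) {t : ℕ} (d : Fin (t + 1) → ℕ)
    (s₀ : Fin (t + 1)) {g : Matrix (Fin (M + 1)) (Fin (M + 1)) ℚ} (hg : g.det ≠ 0) :
    (IxP M d → K) ≃ₗ[K] (IxV M (d s₀) (fun s => d (s₀.succAbove s)) → K) :=
  LinearMap.linearEquivOfInjective (trA K M d s₀ g) (trA_injective hg) (by
    rw [Module.finrank_fintype_fun_eq_card, Module.finrank_fintype_fun_eq_card, card_eq M d s₀])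

lemma trE_apply [CharZero K] {g : Matrix (Fin (M + 1)) (Fin (M + 1)) ℚ} (hg : g.det ≠ 0)
    (b : IxP M d → K) : trE K M d s₀ hg b = trA K M d s₀ g b := rfl

end

end Pool.Agent.BT
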