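import Pool.Agent.Helper37.BT.Basic
import Pool.Agent.Helper10.PL.Lin
import Pool.Agent.Helper37.PC.Geo1b

/-!
# Project BERTINI: the generic member as a power series
-/

universe u

namespace Pool.Agent.BT

open MvPolynomial

/-- the exponent of `y ^ j` -/
noncomputable def expY (N d : ℕ) {j : ℕ} (hj : j ≤ d) : MonV (N + 2) d :=
  ⟨Finsupp.single 1 j, by rw [Finsupp.degree_single]; exact hj⟩

/-- the exponent of `x ^ d` -/
noncomputable def expX (N d : ℕ) : MonV (N + 2) d :=
  ⟨Finsupp.single 0 d, by rw [Finsupp.degree_single]⟩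

lemma totalDegree_inc_f0_le {A : Type u} [Field A] (N : ℕ) {d : ℕ} (γ : Fin d → A) (T : A) :
    (inc N (PC.f0 γ T)).totalDegree ≤ d := by
  unfold PC.f0 inc
  rw [map_sub, map_prod, map_mul, map_pow]
  refine (totalDegree_sub _ _).trans (max_le ?_ ?_)
  · refine (totalDegree_finsetProd _ _).trans ?_
    refine (Finset.sum_le_card_nsmul _ _ 1 fun j _ => ?_).trans (by simp)
    rw [map_sub]
    refine (totalDegree_sub _ _).trans (max_le (by simp) (by simp))
  · refine (totalDegree_mul _ _).trans ?_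
    simp only [AlgHom.toRingHom_eq_coe, RingHom.coe_coe, aeval_C, aeval_X]
    refine (Nat.add_le_add (a := _) (b := 0) (le_of_eq (totalDegree_C _)) (totalDegree_pow _ _)).trans ?_
    simp

/-- the coefficients of `f0` -/
lemma coeff_inc_f0 {A : Type u} [Field A] (N : ℕ) {d : ℕ} (γ : Fin d → A) (T : A)
    (q : Fin (N + 2) →₀ ℕ) :
    coeff q (inc N (PC.f0 γ T)) = (if q = Finsupp.single 1 (q 1) then
      (∏ j, (Polynomial.X - Polynomial.C (γ j))).coeff (q 1) else 0) -
      (if q = Finsupp.single 0 d then T else 0) := by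
  classical
  have h1 : (inc N (∏ j, (X 1 - C (γ j))) : MvPolynomial (Fin (N + 2)) A) =
      Polynomial.aeval (X 1 : MvPolynomial (Fin (N + 2)) A)
        (∏ j, (Polynomial.X - Polynomial.C (γ j))) := by
    unfold inc
    rw [map_prod, map_prod]
    refine Finset.prod_congr rfl fun j _ => ?_
    rw [map_sub, map_sub, Polynomial.aeval_X, Polynomial.aeval_C]
    simp only [AlgHom.toRingHom_eq_coe, RingHom.coe_coe, aeval_C, aeval_X]
    rfl
  have h2 : ∀ P : Polynomial A,
      coeff q (Polynomial.aeval (X 1 : MvPolynomial (Fin (N + 2)) A) P) =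
      if q = Finsupp.single 1 (q 1) then P.coeff (q 1) else 0 := by
    intro P
    rw [Polynomial.aeval_eq_sum_range, coeff_sum]
    have h3 : ∀ i, coeff q (P.coeff i • (X 1 : MvPolynomial (Fin (N + 2)) A) ^ i) =
        if q = Finsupp.single 1 (q 1) ∧ q 1 = i then P.coeff i else 0 := by
      intro i
      rw [smul_eq_C_mul, X_pow_eq_monomial, C_mul_monomial, mul_one, coeff_monomial]
      congr 1
      apply propext
      constructor
      · intro h
        rw [← h]
        simp
      · rintro ⟨h0, h1⟩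
        rw [h0, h1]
    simp only [h3]
    by_cases h0 : q = Finsupp.single 1 (q 1)
    · rw [if_pos h0]
      simp only [← h0, true_and]
      rw [Finset.sum_ite_eq]
      split_ifs with h4
      · rfl
      · rw [Finset.mem_range, not_lt] at h4
        exact (Polynomial.coeff_eq_zero_of_natDegree_lt (by omega)).symm
    · rw [if_neg h0]
      refine Finset.sum_eq_zero fun i _ => ?_
      rw [if_neg]
      exact fun h => h0 h.1
  unfold PC.f0
  rw [map_sub, coeff_sub, h1, h2]
  congr 1
  have h5 : (inc N (C T * X 0 ^ d) : MvPolynomial (Fin (N + 2)) A) = C T * X 0 ^ d := by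
    unfold inc
    rw [map_mul, map_pow]
    simp only [AlgHom.toRingHom_eq_coe, RingHom.coe_coe, aeval_C, aeval_X]
    rfl
  rw [h5, X_pow_eq_monomial, C_mul_monomial, mul_one, coeff_monomial]
  congr 1
  exact propext eq_comm

section

variable {κ κ₁ : Type u} [Field κ] [Field κ₁] [Algebra κ κ₁] {N d m t : ℕ} {ds : Fin t → ℕ}

/-- the index of the coefficient of `y ^ j` -/
noncomputable def idx0 (N : ℕ) (m : ℕ) {d t : ℕ} (ds : Fin t → ℕ) (j : Fin d) :
    IxV (N + 2) d ds × Fin (m + 2) :=
  (Sum.inl (expY N d j.2.le), 0)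

lemma idx0_injective : Function.Injective (idx0 N m ds : Fin d → IxV (N + 2) d ds × Fin (m + 2)) := by
  intro j j' h
  have h1 := (Prod.ext_iff.1 h).1
  have h2 := congrArg Subtype.val (Sum.inl_injective h1)
  change Finsupp.single 1 (j : ℕ) = Finsupp.single 1 (j' : ℕ) at h2
  exact Fin.ext (Finsupp.single_injective _ h2)

/-- the special values of the coefficients -/
noncomputable def spec0 (κ : Type u) [Field κ] {N d m t : ℕ} {ds : Fin t → ℕ}
    (g0 : ∀ s, MonV (N + 2) (ds s) → κ) : IxV (N + 2) d ds × Fin (m + 2) → κ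
  | (Sum.inl q, e) => open Classical in
      if q = expY N d le_rfl ∧ e = 0 then 1 else if q = expX N d ∧ e = 1 then -1 else 0
  | (Sum.inr q, e) => if e = 0 then g0 q.1 q.2 else 0

/-- constant terms of the series of the coefficients -/
noncomputable def ser0 (g0 : ∀ s, MonV (N + 2) (ds s) → κ) (ξ : IxV (N + 2) d ds × Fin (m + 2) → κ₁)
    (i : IxV (N + 2) d ds × Fin (m + 2)) : κ₁ :=
  open Classical in if ∃ j, idx0 N m ds j = i then ξ i else algebraMap κ κ₁ (spec0 κ g0 i)

/-- linear terms of the series of the coefficients -/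
noncomputable def ser1 (x : IxV (N + 2) d ds × Fin (m + 2) → κ₁)
    (i : IxV (N + 2) d ds × Fin (m + 2)) : κ₁ :=
  open Classical in if ∃ j, idx0 N m ds j = i then 0 else x i

lemma ser_add {g0 : ∀ s, MonV (N + 2) (ds s) → κ} {x ξ : IxV (N + 2) d ds × Fin (m + 2) → κ₁}
    (hξb : ∀ i, (∀ j, idx0 N m ds j ≠ i) → ξ i = algebraMap κ κ₁ (spec0 κ g0 i) + x i)
    (i : IxV (N + 2) d ds × Fin (m + 2)) : ser0 g0 ξ i + ser1 x i = ξ i := by
  unfold ser0 ser1
  by_cases h : ∃ j, idx0 N m ds j = i
  · rw [if_pos h, if_pos h, add_zero]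
  · rw [if_neg h, if_neg h]
    push Not at h
    exact (hξb i h).symm

lemma fin_zero_ne_one {m : ℕ} : (0 : Fin (m + 2)) ≠ 1 := by
  intro h
  have h3 := congrArg (fun e : Fin (m + 2) => (e : ℕ)) h
  simp at h3

lemma ser0_main (hd : 0 < d) (g0 : ∀ s, MonV (N + 2) (ds s) → κ) {Γ : Fin d → κ₁}
    {ξ : IxV (N + 2) d ds × Fin (m + 2) → κ₁}
    (hξa : ∀ j, ξ (idx0 N m ds j) = (∏ i, (Polynomial.X - Polynomial.C (Γ i))).coeff (j : ℕ))
    (q : MonV (N + 2) d) (e : Fin (m + 2)) :
    ser0 g0 ξ (Sum.inl q, e) = if e = 0 then (if q.1 = Finsupp.single 1 (q.1 1) then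
      (∏ j, (Polynomial.X - Polynomial.C (Γ j))).coeff (q.1 1) else 0) else
      if e = 1 then (if q.1 = Finsupp.single 0 d then -1 else 0) else 0 := by
  classical
  have hmon : (∏ j, (Polynomial.X - Polynomial.C (Γ j))).coeff d = 1 := by
    have h1 : (∏ j, (Polynomial.X - Polynomial.C (Γ j))).Monic :=
      Polynomial.monic_prod_of_monic _ _ fun i _ => Polynomial.monic_X_sub_C _
    have h2 : (∏ j, (Polynomial.X - Polynomial.C (Γ j))).natDegree = d := by
      rw [Polynomial.natDegree_prod_of_monic _ _ fun i _ => Polynomial.monic_X_sub_C _]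
      simp
    have h3 := h1.coeff_natDegree
    rwa [h2] at h3
  have h01 : (Finsupp.single 0 d : Fin (N + 2) →₀ ℕ) ≠ Finsupp.single 1 (Finsupp.single 0 d 1) := by
    intro h
    have h1 := DFunLike.congr_fun h 0
    simp at h1
    omega
  unfold ser0
  by_cases h : ∃ j, idx0 N m ds j = (Sum.inl q, e)
  · obtain ⟨j, hj⟩ := h
    have h1 := (Prod.ext_iff.1 hj).2
    have h2 := Sum.inl_injective (Prod.ext_iff.1 hj).1
    have h3 : e = 0 := h1.symm
    have h4 : q.1 = Finsupp.single 1 (j : ℕ) := (congrArg Subtype.val h2).symm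
    rw [if_pos ⟨j, hj⟩, if_pos h3, ← hj, hξa]
    have h5 : q.1 1 = (j : ℕ) := by rw [h4]; simp
    rw [h5, if_pos h4]
  · rw [if_neg h]
    simp only [spec0]
    by_cases he : e = 0
    · subst he
      rw [if_pos rfl]
      by_cases h1 : q.1 = Finsupp.single 1 (q.1 1)
      · have h2 : q.1 1 = d := by
          have h3 : ¬ (q.1 1 < d) := by
            intro h4
            apply h
            refine ⟨⟨q.1 1, h4⟩, ?_⟩
            refine Prod.ext (congrArg Sum.inl (Subtype.ext h1.symm)) rfl
          have h4 := q.2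
          rw [h1, Finsupp.degree_single] at h4
          omega
        have h5 : q = expY N d le_rfl := by
          apply Subtype.ext
          rw [h1, h2]
          rfl
        rw [if_pos ⟨h5, rfl⟩, if_pos h1, h2, hmon, map_one]
      · rw [if_neg, if_neg, if_neg h1, map_zero]
        · exact fun h2 => fin_zero_ne_one h2.2
        · rintro ⟨h2, -⟩
          apply h1
          rw [h2]
          simp [expY]
    · rw [if_neg (fun h2 => he h2.2), if_neg he]
      by_cases he1 : e = 1
      · rw [if_pos he1]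
        by_cases h1 : q.1 = Finsupp.single 0 d
        · rw [if_pos ⟨Subtype.ext h1, he1⟩, if_pos h1, map_neg, map_one]
        · rw [if_neg (fun h2 => h1 (congrArg Subtype.val h2.1)), if_neg h1, map_zero]
      · rw [if_neg (fun h2 => he1 h2.2), if_neg he1, map_zero]

/-- the constant term of the main relation -/
lemma sum_ser0_main {A : Type u} [Field A] (cA : κ₁ →+* A) (hd : 0 < d)
    (g0 : ∀ s, MonV (N + 2) (ds s) → κ) {Γ : Fin d → κ₁}
    {ξ : IxV (N + 2) d ds × Fin (m + 2) → κ₁}
    (hξa : ∀ j, ξ (idx0 N m ds j) = (∏ i, (Polynomial.X - Polynomial.C (Γ i))).coeff (j : ℕ))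
    {v : Fin (m + 2) → A} (hv0 : v 0 = 1) (q : MonV (N + 2) d) :
    ∑ e, cA (ser0 g0 ξ (Sum.inl q, e)) * v e =
      coeff q.1 (inc N (PC.f0 (fun i => cA (Γ i)) (v 1))) := by
  classical
  rw [coeff_inc_f0]
  have h1 : ∀ e, cA (ser0 g0 ξ (Sum.inl q, e)) * v e = (if e = 0 then
      (if q.1 = Finsupp.single 1 (q.1 1) then
      (∏ j, (Polynomial.X - Polynomial.C (cA (Γ j)))).coeff (q.1 1) else 0) else 0) +
      (if e = 1 then (if q.1 = Finsupp.single 0 d then -(v 1) else 0) else 0) := by
    intro e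
    rw [ser0_main hd g0 hξa]
    have h2 : (∏ j, (Polynomial.X - Polynomial.C (cA (Γ j)))) =
        (∏ j, (Polynomial.X - Polynomial.C (Γ j))).map cA := by
      rw [Polynomial.map_prod]
      exact Finset.prod_congr rfl fun j _ => by simp
    rw [h2, Polynomial.coeff_map]
    by_cases he : e = 0
    · subst he
      rw [if_pos rfl, if_pos rfl, if_neg fin_zero_ne_one, add_zero, hv0, mul_one]
      split_ifs
      · rfl
      · rw [map_zero]
    · rw [if_neg he, if_neg he, zero_add]
      by_cases he1 : e = 1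
      · subst he1
        rw [if_pos rfl, if_pos rfl]
        split_ifs
        · rw [map_neg, map_one, neg_one_mul]
        · rw [map_zero, zero_mul]
      · rw [if_neg he1, if_neg he1, map_zero, zero_mul]
  simp only [h1]
  rw [Finset.sum_add_distrib, Finset.sum_ite_eq', Finset.sum_ite_eq', if_pos (Finset.mem_univ _),
    if_pos (Finset.mem_univ _), sub_eq_add_neg]
  congr 1
  split_ifs
  · rfl
  · rw [neg_zero]

/-- the constant term of the other variable relations -/
lemma sum_ser0_oth {A : Type u} [Field A] (cA : κ₁ →+* A)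
    (g0 : ∀ s, MonV (N + 2) (ds s) → κ) {ξ : IxV (N + 2) d ds × Fin (m + 2) → κ₁}
    {v : Fin (m + 2) → A} (hv0 : v 0 = 1) (s : Fin t) (q : MonV (N + 2) (ds s)) :
    ∑ e, cA (ser0 (d := d) g0 ξ (Sum.inr ⟨s, q⟩, e)) * v e = cA (algebraMap κ κ₁ (g0 s q)) := by
  classical
  have h1 : ∀ e, cA (ser0 (d := d) g0 ξ (Sum.inr ⟨s, q⟩, e)) * v e =
      if e = 0 then cA (algebraMap κ κ₁ (g0 s q)) else 0 := by
    intro e
    have h2 : ¬ ∃ j : Fin d, idx0 N m ds j = (Sum.inr ⟨s, q⟩, e) := by
      rintro ⟨j, hj⟩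
      have h3 := (Prod.ext_iff.1 hj).1
      cases h3
    unfold ser0
    rw [if_neg h2]
    simp only [spec0]
    by_cases he : e = 0
    · subst he
      rw [if_pos rfl, if_pos rfl, hv0, mul_one]
    · rw [if_neg he, if_neg he, map_zero, map_zero, zero_mul]
  simp only [h1]
  rw [Finset.sum_ite_eq', if_pos (Finset.mem_univ _)]

end

end Pool.Agent.BT
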