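import Pool.Agent.Helper37.BT.Gen

/-!
# Stub of project BERTINI: GEO over the explicit field (helper37)
-/

universe u v

namespace Pool.Agent.BT

open MvPolynomial

/-- **GEO1.** -/
theorem geo1_stub {κ E : Type u} [Field κ] [IsAlgClosed κ] [CharZero κ] [Field E] [Algebra κ E]
    (φE : E →+* HahnSeries ℤ κ) (hφc : ∀ c : κ, φE (algebraMap κ E c) = HahnSeries.C c) {T : E}
    (hφT : φE T = HahnSeries.single 1 1) {N d p r m t : ℕ} (hp : p.Prime) (hd : d = p * r)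
    (hd3 : 3 ≤ d) {ds : Fin t → ℕ} {U : Type} [Fintype U] {e : U → ℕ}
    {w : Fin (m + 2) → E} (hw0 : w 0 = 1) (hw1 : w 1 = T)
    {h : ∀ u, MonV (N + 2) (e u) → E} {g0 : ∀ s, MonV (N + 2) (ds s) → κ} {c : ℕ}
    (hNoe : Noe (relS (fun s q => algebraMap κ E (g0 s q)) h) c) :
    ∃ (S₁ : Type u) (_ : Field S₁) (_ : Algebra (FFV E (N + 2) d m ds) S₁) (n M : ℕ)
      (G : Fin d → MonV (N + 2) n → algebraicClosure (FFV E (N + 2) d m ds) S₁)
      (W : MonV (N + 2) (r * n) → algebraicClosure (FFV E (N + 2) d m ds) S₁)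
      (H : MonV (N + 2) M → algebraicClosure (FFV E (N + 2) d m ds) S₁)
      (H' : Fin t ⊕ U → MonV (N + 2) M → algebraicClosure (FFV E (N + 2) d m ds) S₁)
      (D D' : Fin d → MonV (N + 2) M → algebraicClosure (FFV E (N + 2) d m ds) S₁)
      (D'' : Fin d → Fin t ⊕ U → MonV (N + 2) M → algebraicClosure (FFV E (N + 2) d m ds) S₁)
      (c : Fin d → Fin (M + 1) → algebraicClosure (FFV E (N + 2) d m ds) S₁) (τ : S₁ ≃+* S₁)
      (Q : Subfield S₁),
      n ≤ M ∧ 1 ≤ M ∧ IsAlgClosed S₁ ∧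
      -- the identities
      ∏ i, pol (G i) = C (algebraMap (FFV E (N + 2) d m ds)
        (algebraicClosure (FFV E (N + 2) d m ds) S₁) (cF (N + 2) d m ds T)) * pol W ^ p +
        comb (fun a => algebraMap (FFV E (N + 2) d m ds) (algebraicClosure (FFV E (N + 2) d m ds) S₁) (fF w a))
          (fun u a => algebraMap (FFV E (N + 2) d m ds) (algebraicClosure (FFV E (N + 2) d m ds) S₁) (relF w h u a))
          H H' ∧
      FinX (fF (ds := ds) w : MonV (N + 2) d → FFV E (N + 2) d m ds) (relF w h) M ∧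
      (∀ i j, i ≠ j → Cop (G i) (G j)
        (fun a => algebraMap (FFV E (N + 2) d m ds) (algebraicClosure (FFV E (N + 2) d m ds) S₁) (fF w a))
        (fun u a => algebraMap (FFV E (N + 2) d m ds) (algebraicClosure (FFV E (N + 2) d m ds) S₁) (relF w h u a)) M) ∧
      (∀ i, c i ≠ 0 ∧ pol (D i) * pol (G i) +
        comb (fun a => algebraMap (FFV E (N + 2) d m ds) (algebraicClosure (FFV E (N + 2) d m ds) S₁) (fF w a))
          (fun u a => algebraMap (FFV E (N + 2) d m ds) (algebraicClosure (FFV E (N + 2) d m ds) S₁) (relF w h u a))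
          (D' i) (D'' i) = polX (c i)) ∧
      -- the automorphism `τ`
      (∀ y : FFV E (N + 2) d m ds, τ (algebraMap _ S₁ y) = algebraMap _ S₁ y) ∧
      (∀ y : κ, algebraMap (FFV E (N + 2) d m ds) S₁ (cF (N + 2) d m ds (algebraMap κ E y)) ∈ Q) ∧
      (∀ i, algebraMap (FFV E (N + 2) d m ds) S₁ (xF i) ∈ Q) ∧
      (∀ y, IsAlgebraic Q y → τ y = y) ∧
      (∀ i a, τ (G i a : S₁) = G i a) ∧ (∀ a, τ (W a : S₁) = W a) ∧
      (∀ α : S₁, α ^ p = algebraMap (FFV E (N + 2) d m ds) S₁ (cF (N + 2) d m ds T) → τ α ≠ α) ∧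
      -- the transpositions
      ∀ i j l, i ≠ j → j ≠ l → i ≠ l → ∃ ρ : S₁ ≃+* S₁,
        (∀ y : FFV E (N + 2) d m ds, ρ (algebraMap _ S₁ y) = algebraMap _ S₁ y) ∧
        (∀ a, ρ (G i a : S₁) = G j a) ∧ (∀ a, ρ (G l a : S₁) = G l a) ∧
        ∀ y, τ (ρ y) = ρ (τ y) := by
  sorry

end Pool.Agent.BT
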