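import Pool.Agent.Helper37.BT.Defs

/-!
# Stubs of project BERTINI: graded Nakayama (helper97)
-/

universe u v

namespace Pool.Agent.BT

open MvPolynomial

/-- base change -/
theorem Noe.map_stub {K : Type u} {L : Type v} [Field K] [Field L] (ι : K →+* L) {N : ℕ} {U : Type}
    [Fintype U] {e : U → ℕ} {rel : ∀ u, MonV (N + 2) (e u) → K} {c : ℕ} (h : Noe rel c) :
    Noe (fun u q => ι (rel u q)) c := by
  sorry

/-- Graded Nakayama: `h_u = 0` and `z = x = y = 0`, `X (2 + s) = 0` (`s < t`) have no common zero: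
all monomials of degree at most `c` are in the ideal, with the obvious degrees.  Then NOE holds for the
relations `X (2 + s) ^ (ds s)`, `h_u`. -/
theorem noe_of_cert_stub {K : Type u} [Field K] {N t : ℕ} (ht : t ≤ N) {ds : Fin t → ℕ}
    (hds : ∀ s, 1 ≤ ds s) {U : Type} [Fintype U] {e : U → ℕ} {h : ∀ u, MonV (N + 2) (e u) → K}
    {c : ℕ} (hc : 1 ≤ c)
    (hcert : ∀ q : MonV (N + 2) c, ∃ (A : MonV (N + 2) (c - 1) → K)
      (B : Fin (t + 2) → MonV (N + 2) (c - 1) → K) (b : U → MvPolynomial (Fin (N + 2)) K),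
      (∀ u, b u ≠ 0 → (b u).totalDegree + e u ≤ c) ∧
      pol A + ∑ s, pol (B s) * X (Fin.castLE (by omega) s) + ∑ u, b u * pol (h u) =
        monomial q.1 1)
    {g0 : ∀ s, MonV (N + 2) (ds s) → K}
    (hg0 : ∀ s, pol (g0 s) = X (Fin.natAdd 2 (Fin.castLE ht s) |>.cast (by omega)) ^ ds s) :
    ∃ c', Noe (relS g0 h) c' := by
  sorry

end Pool.Agent.BT
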