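import Pool.Agent.Helper10.PL.Lin
import Pool.Agent.Helper37.BT.Defs

/-!
# Stubs of project BERTINI: the deformation (helper10) and the certificates (helper45)
-/

universe u v w

namespace Pool.Agent.BT

open MvPolynomial

/-- SOL.  `n = 1 + p m`, `m ≥ d + c`.  `f0`, `G0` are the plane polynomials of Helper10/PL/Lin. -/
theorem exists_sol_stub {A : Type u} [Field A] [CharZero A] {N d p r m c : ℕ} {U : Type} [Fintype U]
    {e : U → ℕ} (hp : p.Prime) (hd : d = p * r) (hd0 : 0 < d) (hm : d + c ≤ m) {T : A} (hT : T ≠ 0)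
    {γ : Fin d → A} (hγ : Function.Injective γ) (hγ1 : ∀ i j, γ i ≠ γ j + 1)
    (f : MonV (N + 2) d → PowerSeries A) (rel : ∀ u, MonV (N + 2) (e u) → PowerSeries A)
    (hf : pol (fun q => PowerSeries.constantCoeff (f q)) = inc N (PC.f0 γ T))
    (hrel : Noe (fun u q => PowerSeries.constantCoeff (rel u q)) c) :
    ∃ (G : Fin d → MonV (N + 2) (1 + p * m) → PowerSeries A)
      (W : MonV (N + 2) (r * (1 + p * m)) → PowerSeries A)
      (H : MonV (N + 2) (d * (1 + p * m)) → PowerSeries A)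
      (H' : U → MonV (N + 2) (d * (1 + p * m)) → PowerSeries A),
      ∏ i, pol (G i) = C (PowerSeries.C T) * pol W ^ p + comb f rel H H' ∧
      (∀ i, pol (fun q => PowerSeries.constantCoeff (G i q)) = inc N (PC.G0 p m (γ i))) ∧
      -- equivariance
      (∀ (ρ : A ≃+* A) (e : Equiv.Perm (Fin d)), ρ T = T → (∀ i, ρ (γ i) = γ (e i)) →
        (∀ q, PowerSeries.map (ρ : A →+* A) (f q) = f q) →
        (∀ u q, PowerSeries.map (ρ : A →+* A) (rel u q) = rel u q) →
        (∀ i q, PowerSeries.map (ρ : A →+* A) (G i q) = G (e i) q) ∧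
        (∀ q, PowerSeries.map (ρ : A →+* A) (W q) = W q) ∧
        (∀ q, PowerSeries.map (ρ : A →+* A) (H q) = H q) ∧
        (∀ u q, PowerSeries.map (ρ : A →+* A) (H' u q) = H' u q)) ∧
      -- algebraicity
      ∀ {L : Type u} [Field L] (φ : PowerSeries A →+* L), Function.Injective φ →
        ∀ K : Subfield L, φ (PowerSeries.C T) ∈ K →
        (∀ i, IsAlgebraic K (φ (PowerSeries.C (γ i)))) → (∀ q, φ (f q) ∈ K) →
        (∀ u q, φ (rel u q) ∈ K) →
        (∀ u q, φ (PowerSeries.C (PowerSeries.constantCoeff (rel u q))) ∈ K) →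
        (∀ i q, IsAlgebraic K (φ (G i q))) ∧ (∀ q, IsAlgebraic K (φ (W q))) ∧
        (∀ q, IsAlgebraic K (φ (H q))) ∧ (∀ u q, IsAlgebraic K (φ (H' u q))) := by
  sorry

/-- CERT: the certificates at the special curve propagate.  `K ⊆ L ⊇ A⟦ε⟧`. -/
theorem exists_cert_stub {A : Type u} [Field A] [CharZero A] {N d p m c : ℕ} {U : Type} [Fintype U]
    {e : U → ℕ} (hp : p.Prime) (hd : 0 < d) {T : A} (hT : T ≠ 0)
    {γ : Fin d → A} (hγ : Function.Injective γ) (hγ1 : ∀ i j, γ i ≠ γ j + 1)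
    {f : MonV (N + 2) d → PowerSeries A} {rel : ∀ u, MonV (N + 2) (e u) → PowerSeries A}
    (hf : pol (fun q => PowerSeries.constantCoeff (f q)) = inc N (PC.f0 γ T))
    (hrel : Noe (fun u q => PowerSeries.constantCoeff (rel u q)) c)
    {G : Fin d → MonV (N + 2) (1 + p * m) → PowerSeries A}
    (hG : ∀ i, pol (fun q => PowerSeries.constantCoeff (G i q)) = inc N (PC.G0 p m (γ i)))
    {L K : Type u} [Field L] [Field K] (ψ : PowerSeries A →+* L) (hψ : Function.Injective ψ)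
    (ι : K →+* L) {fK : MonV (N + 2) d → K} {relK : ∀ u, MonV (N + 2) (e u) → K}
    {GK : Fin d → MonV (N + 2) (1 + p * m) → K}
    (hfK : ∀ a, ι (fK a) = ψ (f a)) (hrelK : ∀ u a, ι (relK u a) = ψ (rel u a))
    (hGK : ∀ i a, ι (GK i a) = ψ (G i a)) (M₀ : ℕ) :
    ∃ M : ℕ, M₀ ≤ M ∧ 1 + p * m ≤ M ∧ 1 ≤ M ∧ FinX fK relK M ∧
      (∀ i j, i ≠ j → Cop (GK i) (GK j) fK relK M) ∧
      ∃ (D : Fin d → MonV (N + 2) M → K) (D' : Fin d → MonV (N + 2) M → K)
        (D'' : Fin d → U → MonV (N + 2) M → K) (c : Fin d → Fin (M + 1) → K), ∀ i, c i ≠ 0 ∧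
        pol (D i) * pol (GK i) + comb fK relK (D' i) (D'' i) = polX (c i) := by
  sorry

end Pool.Agent.BT
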